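import Pool.Agent.H83.VT.Vcp

/-!
# The mutual informations of the near digits, any quantities of the target, class level

`VB`: the numbers of the base; `NlqI`: no look-ahead for two quantities; `vlaw_gen`: `VLaw2` on all
large events for any two quantities, the first few bits given the record at `j` and the near
positions of the base, the second few bits given the record at `x'`.
-/

set_option autoImplicit false

namespace Pool.VT83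

open Finset Real MvPolynomial
open Pool.Agent.H49.Ent Pool.Agent.H32.Dense Pool.STK Pool.KA Pool.KSAT Pool.K2S Pool.PB Pool.GEN
open Pool.S6C Pool.RCD Pool.LA91 Pool.V0F
open Pool.UNJ (ceI)
open Pool.GRD (LbP)

variable {m : ℕ}

/-- **The numbers** of the windows and of the digits of the base. -/
structure VB (r : ℕ) (sn : ℕ → ℝ → ℝ) (G : Set ℝ) (b o φ : ℝ) (p nn nf : ℕ → ℝ)
    (w₁ j x x' Δ : ℝ) : Prop where
  jG : j ∈ G
  xG : x ∈ G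
  xG' : x' ∈ G
  bw : b ≤ w₁
  wj : w₁ ≤ j
  wx : w₁ ≤ x
  jx : j ≤ x'
  xx : x ≤ x'
  xo : x' ≤ o
  x1 : x' + 60 * ((r : ℝ) + 1) * φ ≤ 1
  bx : b + 60 * φ ≤ x'
  hp : ∀ i < r, sn i b - φ ≤ p i
  nj : ∀ i < r, sn i j ≤ nn i
  nx : ∀ i < r, sn i x ≤ nn i
  nnf : ∀ i < r, nn i ≤ nf i
  nf0 : ∀ i < r, sn i x' ≤ nf i
  nfΔ : ∀ i < r, nf i ≤ sn i x' + Δ
  nf1 : ∀ i < r, nf i ≤ 1
  tp : Tp r sn b φ nf

/-- **No look-ahead** for two quantities over the exact positions of the base: the record at `j` does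
not see more of `Q₂` than `Q₁`. -/
def NlqI (S : PCl m) (c : ℕ → Fin m) (r : ℕ) (w j : ℝ) {U₁ U₂ : Type} (Q₁ : Qt m U₁)
    (Q₂ : Qt m U₂) (κ : ℝ) : Prop :=
  ∃ k₁ : ℝ, 0 < k₁ ∧ ∃ e₀ : ℝ, 0 < e₀ ∧ ∀ K : ℕ, Bas S (fun J F A =>
    ∀ (V : Type) (z : F.Ω → V) (V' : Type) (z' : F.Ω → V'),
    Mx (fun J F => ptr F J) (vg w) k₁ F A z → Mx (fun J F => ptr F J) (vg j) k₁ F A z' →
    ∀ u₁ u₂, Q₁.P K e₀ J F A u₁ → Q₂.P K e₀ J F A u₂ →
    CH (Pool.Agent.H49.Ent.cond F.p A True) u₂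
        (fun ω => (u₁ ω, ((fun l : Fin r => F.X J ω (c l)), (z ω, F.W ω)))) ≤
      CH (Pool.Agent.H49.Ent.cond F.p A True) u₂
        (fun ω => ((fun l : Fin r => F.X J ω (c l)), (z' ω, F.W ω))) + κ * J)

/-- **The mutual informations of the near digits**, on all large events, for two quantities `Q₁`,
`Q₂` of the target and of the side. -/
theorem vlaw_gen {S : PCl m} {c : ℕ → Fin m} {r : ℕ} {sn : ℕ → ℝ → ℝ} {G : Set ℝ}
    {b o φ : ℝ} (L : Lad S c r sn G b o φ) {p nn nf : ℕ → ℝ} {w₁ j x x' Δ : ℝ}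
    (N : VB r sn G b o φ p nn nf w₁ j x x' Δ) {U₁ U₂ : Type} {Q₁ : Qt m U₁} {Q₂ : Qt m U₂}
    (c1 : Few S (fun J F => ptr F J) (vg j) (fun _ F => F.W)
      (qJets m c 0 r 0 (fun _ _ => b) (fun l _ => p l) (fun l _ => nn l)) Q₁)
    (c2 : Few0 S (fun J F => ptr F J) (vg x') (fun _ F => F.W) Q₂)
    {sp : ℕ → ℝ → ℝ} {P : Fin r → ℝ} {κf κn : ℝ} (hfr : FrI S c r sp b P w₁ x' κf)
    (hnl : NlqI S c r w₁ j Q₁ Q₂ κn) (hκf : 0 ≤ κf) (hκn : 0 ≤ κn) (ε : ℝ) (hε : 0 < ε) :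
    ∃ k : ℝ, 0 < k ∧ ∃ e₀ : ℝ, 0 < e₀ ∧ ∀ K : ℕ, Bas S (fun J F A =>
      ∀ (V₁ : Type) (zw : F.Ω → V₁) (V₂ : Type) (Rj : F.Ω → V₂) (V₃ : Type) (Rx : F.Ω → V₃)
        (V₄ : Type) (R' : F.Ω → V₄), Mx (fun J F => ptr F J) (vg w₁) k F A zw →
      Mx (fun J F => ptr F J) (vg j) k F A Rj → Mx (fun J F => ptr F J) (vg x) k F A Rx →
      Mx (fun J F => ptr F J) (vg x') k F A R' → ∀ Xq Xp Up N1 N2,
      (qJets m c 0 r 0 (fun _ _ => b) (fun l _ => p l) (fun l _ => nn l)).P K e₀ J F A Xq →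
      (qJets m c 0 r 0 (fun _ _ => b) (fun l _ => p l) (fun l _ => nf l)).P K e₀ J F A Xp →
      (qG m c r sp b P).P K e₀ J F A Up → Q₁.P K e₀ J F A N1 → Q₂.P K e₀ J F A N2 →
      ∀ (δ : Type) (Uq : F.Ω → δ) (κ : ℝ),
      (r * Δ + 20 * (r : ℝ) ^ 2 * φ + κf + κn + ε) * J ≤ κ →
      CH (Pool.Agent.H49.Ent.cond F.p A True) Uq Up ≤ κ →
      CH (Pool.Agent.H49.Ent.cond F.p A True) Xp (fun ω => (Xq ω, (zw ω, F.W ω))) ≤
        (∑ i ∈ range r, (nf i - nn i)) * Real.log 2 * J + κ →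
      CH (Pool.Agent.H49.Ent.cond F.p A True) Xq (fun ω => (Xp ω, (zw ω, F.W ω))) ≤ κ →
      VLaw2 (Pool.Agent.H49.Ent.cond F.p A True) zw Rj Rx R' F.W Xq Xp Uq Up N1 N2
        (fun ω => fun l : Fin r => F.X J ω (c l)) ((∑ i ∈ range r, (nf i - nn i)) * Real.log 2 * J)
        ((∑ i ∈ range r, (1 - nf i)) * Real.log 2 * J) κ) := by
  have hφ := L.φ0
  have hr0 : (0 : ℝ) ≤ r := Nat.cast_nonneg r
  have hrφ : 0 ≤ (r : ℝ) * φ := by positivity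
  have hl2 : 0 < Real.log 2 := Real.log_pos one_lt_two
  have hl2' : Real.log 2 ≤ 1 := by
    have := Real.log_two_lt_d9
    linarith
  have hx1 : x' ≤ 1 := by nlinarith [N.x1]
  have hj1 : j ≤ 1 := N.jx.trans hx1
  have hxx1 : x ≤ 1 := N.xx.trans hx1
  have hbj : b ≤ j := N.bw.trans N.wj
  have hbx : b ≤ x := N.bw.trans N.wx
  have hbx' : b ≤ x' := hbx.trans N.xx
  have hjo : j ≤ o := N.jx.trans N.xo
  have hxo : x ≤ o := N.xx.trans N.xo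
  have hf : ∀ (J : ℕ) (F : Fam m J), ∃ χ : PtT F → PtT F, ∀ ω, ptr F J ω = χ (ptr F J ω) :=
    fun J F => ⟨fun x => x, fun _ => rfl⟩
  obtain ⟨η, hη⟩ : ∃ η : ℝ, η = ε / 16 := ⟨_, rfl⟩
  have hη0 : 0 < η := by rw [hη]; positivity
  -- the levels at `b`
  have hb0 : ∀ i < r, sn i b ≤ nf i := by
    intro i hi
    have e1 := abs_le.1 (lad_fl L N.xG' hbx' N.xo i hi b L.bG le_rfl hbx')
    have e2 := N.nf0 i hi
    have e3 := N.bx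
    linarith [e1.2]
  have c3 := fup L N.jG hbj hjo N.hp (q := nn) (n := nf) (fun i hi => ⟨N.nj i hi, N.nnf i hi,
    N.nf1 i hi⟩) N.tp η hη0
  have c4 := fup L N.xG hbx hxo N.hp (q := nn) (n := nf) (fun i hi => ⟨N.nx i hi, N.nnf i hi,
    N.nf1 i hi⟩) N.tp η hη0
  have c5 := fux L L.bG le_rfl (hbx'.trans N.xo) N.hp (n := nf) (fun i hi => ⟨hb0 i hi,
    N.nf1 i hi⟩) N.tp η hη0
  have c6 := fux L N.xG' hbx' N.xo N.hp (n := nf) (fun i hi => ⟨N.nf0 i hi, N.nf1 i hi⟩) N.tp η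
    hη0
  have c9 := lad_fewC_heights (f := fun J F => ptr F J) (y := fun _ F => F.W) L hf kn_W N.xG' hbx'
    N.xo le_rfl hx1 N.hp N.nf0
  obtain ⟨e1, he1, H1⟩ := c1.mx L.pos η hη0
  obtain ⟨e2, he2, H2⟩ := c2.mx L.pos η hη0
  obtain ⟨k3, hk3, e3, he3, H3⟩ := c3
  obtain ⟨k4, hk4, e4, he4, H4⟩ := c4
  obtain ⟨k5, hk5, e5, he5, H5⟩ := c5
  obtain ⟨k6, hk6, e6, he6, H6⟩ := c6
  obtain ⟨e9, he9, H9⟩ := c9.mx L.pos η hη0
  obtain ⟨k10, hk10, e10, he10, H10⟩ := hfr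
  obtain ⟨k11, hk11, e11, he11, H11⟩ := hnl
  obtain ⟨k, hk, l3, l4, l5, l6, l10, l11, lη⟩ : ∃ k : ℝ, 0 < k ∧ k ≤ k3 ∧ k ≤ k4 ∧
      k ≤ k5 ∧ k ≤ k6 ∧ k ≤ k10 ∧ k ≤ k11 ∧ k ≤ η / 2 := by
    refine ⟨min k3 (min k4 (min k5 (min k6 (min k10 (min k11 (η / 2)))))), by positivity, ?_, ?_,
      ?_, ?_, ?_, ?_, ?_⟩ <;> simp only [min_le_iff, le_refl, true_or, or_true]
  obtain ⟨e₀, he₀, f1, f2, f3, f4, f5, f6, f9, f10, f11⟩ : ∃ e₀ : ℝ, 0 < e₀ ∧ e₀ ≤ e1 ∧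
      e₀ ≤ e2 ∧ e₀ ≤ e3 ∧ e₀ ≤ e4 ∧ e₀ ≤ e5 ∧ e₀ ≤ e6 ∧ e₀ ≤ e9 ∧ e₀ ≤ e10 ∧ e₀ ≤ e11 := by
    refine ⟨min e1 (min e2 (min e3 (min e4 (min e5 (min e6 (min e9 (min e10 e11))))))),
      by positivity, ?_, ?_, ?_, ?_, ?_, ?_, ?_, ?_, ?_⟩ <;>
    simp only [min_le_iff, le_refl, true_or, or_true]
  obtain ⟨J₁, hJ₁⟩ := exists_nat_gt (1 / η)
  refine ⟨k, hk, e₀, he₀, fun K => ?_⟩
  refine Bas.mono J₁ ((((H1 K).and (H2 K)).and ((H3 K).and (H4 K))).and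
    (((H5 K).and (H6 K)).and (((H9 K).and (H10 K)).and ((H11 K).and (pos_bas L.pos))))) ?_
  rintro J hJ F A ⟨⟨⟨H1, H2⟩, H3, H4⟩, ⟨H5, H6⟩, ⟨H9, H10⟩, H11, hA⟩ V₁ zw V₂ Rj V₃ Rx
    V₄ R' hzw hRj hRx hR' Xq Xp Up N1 N2 hXq hXp hUp hN1 hN2 δ Uq κ hκ huq hcn hqp
  have hcl := isLaw_cond F.isLaw hA
  have h0 := hcl.nonneg
  have hJ0 : (0 : ℝ) ≤ J := Nat.cast_nonneg J
  have hηJ : 1 ≤ η * J := by
    have h1 : 1 / η < J := hJ₁.trans_le (by exact_mod_cast hJ)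
    rw [div_lt_iff₀ hη0] at h1
    linarith
  have hηJ0 : 0 ≤ η * J := by linarith
  have hkJ : k * J ≤ η / 2 * J := mul_le_mul_of_nonneg_right lη hJ0
  have hkJ0 : 0 ≤ k * J := by positivity
  have hΔ0 : 0 ≤ r * Δ := by
    rcases Nat.eq_zero_or_pos r with h | h
    · rw [h]
      simp
    · have h1 := N.nf0 0 h
      have h2 := N.nfΔ 0 h
      have : 0 ≤ Δ := by linarith
      positivity
  have hrΔJ : 0 ≤ r * Δ * J := mul_nonneg hΔ0 hJ0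
  have hφJ : 0 ≤ 20 * (r : ℝ) ^ 2 * φ * J := by positivity
  have hκfJ : 0 ≤ κf * J := by positivity
  have hκnJ : 0 ≤ κn * J := by positivity
  have hκe : (r * Δ + 20 * (r : ℝ) ^ 2 * φ + κf + κn + ε) * J = r * Δ * J +
      20 * (r : ℝ) ^ 2 * φ * J + κf * J + κn * J + 16 * (η * J) := by
    rw [hη]
    ring
  rw [hκe] at hκ
  -- the canonical records
  have zb : Mx (fun J F => ptr F J) (vg b) k F A (cR F A b) := mx_cR hA b hk.le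
  have hw₁1 : w₁ ≤ 1 := N.wj.trans hj1
  have d1 : CH (Pool.Agent.H49.Ent.cond F.p A True) zw Rj ≤ k * J :=
    mx_before hRj N.wj hj1 hzw.1
  have d2 : CH (Pool.Agent.H49.Ent.cond F.p A True) zw Rx ≤ k * J :=
    mx_before hRx N.wx hxx1 hzw.1
  have d3 : CH (Pool.Agent.H49.Ent.cond F.p A True) Rj R' ≤ k * J :=
    mx_before hR' N.jx hx1 hRj.1
  have d4 : CH (Pool.Agent.H49.Ent.cond F.p A True) Rx R' ≤ k * J :=
    mx_before hR' N.xx hx1 hRx.1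
  have d5 : CH (Pool.Agent.H49.Ent.cond F.p A True) (cR F A b) zw ≤ k * J :=
    mx_before hzw N.bw hw₁1 zb.1
  -- the entropies
  have a1 := H1 V₂ Rj (hRj.le' lη) Xq N1 ((qJets m c 0 r 0 _ _ _).mono le_rfl f1 hXq)
    (Q₁.mono le_rfl f1 hN1)
  have a2 := H2 V₄ R' (hR'.le' lη) N2 (Q₂.mono le_rfl f2 hN2)
  have a3 := H3 V₂ Rj (hRj.le' l3) Xp Xq ((qJets m c 0 r 0 _ _ _).mono le_rfl f3 hXp)
    ((qJets m c 0 r 0 _ _ _).mono le_rfl f3 hXq)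
  have a4 := H4 V₃ Rx (hRx.le' l4) Xp Xq ((qJets m c 0 r 0 _ _ _).mono le_rfl f4 hXp)
    ((qJets m c 0 r 0 _ _ _).mono le_rfl f4 hXq)
  obtain ⟨-, a5, a5'⟩ := H5 _ (cR F A b) (zb.le' l5) Xp
    ((qJets m c 0 r 0 _ _ _).mono le_rfl f5 hXp)
  have a5 := a5 _ (cR F A b) (zb.le' l5)
  have a5' := a5' _ (cR F A b) (zb.le' l5)
  have a6 := (H6 V₄ R' (hR'.le' l6) Xp ((qJets m c 0 r 0 _ _ _).mono le_rfl f6 hXp)).1
  have a9 := H9 V₄ R' (hR'.le' lη) (fun _ => ()) Xp (fun ω _ => rfl)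
    ((qJets m c 0 r 0 _ _ _).mono le_rfl f9 hXp)
  have a10 := H10 V₁ zw V₄ R' (hzw.le' l10) (hR'.le' l10) Up
    ((qG m c r sp b P).mono le_rfl f10 hUp)
  have a11 := H11 V₁ zw V₂ Rj (hzw.le' l11) (hRj.le' l11) N1 N2 (Q₁.mono le_rfl f11 hN1)
    (Q₂.mono le_rfl f11 hN2)
  obtain ⟨XJ, hXJ⟩ : ∃ XJ : F.Ω → Fin r → ℤ, XJ = fun ω => fun l : Fin r => F.X J ω (c l) :=
    ⟨_, rfl⟩
  obtain ⟨Fv, hFv⟩ : ∃ Fv, Fv = (∑ i ∈ range r, (nf i - nn i)) * Real.log 2 * J := ⟨_, rfl⟩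
  obtain ⟨Gf, hGf⟩ : ∃ Gf, Gf = (∑ i ∈ range r, (1 - nf i)) * Real.log 2 * J := ⟨_, rfl⟩
  have hls : 20 * (r : ℝ) ^ 2 * φ * Real.log 2 * J ≤ 20 * (r : ℝ) ^ 2 * φ * J := by
    have : 20 * (r : ℝ) ^ 2 * φ * J * Real.log 2 ≤ 20 * (r : ℝ) ^ 2 * φ * J * 1 :=
      mul_le_mul_of_nonneg_left hl2' hφJ
    linarith
  have hF1 : ((∑ i ∈ range r, (nf i - nn i)) - 20 * (r : ℝ) ^ 2 * φ) * Real.log 2 * J - η * J =
      Fv - 20 * (r : ℝ) ^ 2 * φ * Real.log 2 * J - η * J := by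
    rw [hFv]
    ring
  have hG1 : ((∑ i ∈ range r, (1 - nf i)) - 20 * (r : ℝ) ^ 2 * φ) * Real.log 2 * J - η * J =
      Gf - 20 * (r : ℝ) ^ 2 * φ * Real.log 2 * J - η * J := by
    rw [hGf]
    ring
  rw [hF1] at a3 a4
  rw [hG1] at a6
  rw [← hGf] at a5
  have a5 : CH (Pool.Agent.H49.Ent.cond F.p A True) XJ
      (fun ω => (Xp ω, (cR F A b ω, F.W ω))) ≤ Gf + η * J := by
    rw [hXJ]
    exact a5
  have a5' : CH (Pool.Agent.H49.Ent.cond F.p A True) Xp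
      (fun ω => (XJ ω, (cR F A b ω, F.W ω))) ≤ η * J := by
    rw [hXJ]
    exact a5'
  have a6 : Gf - 20 * (r : ℝ) ^ 2 * φ * Real.log 2 * J - η * J ≤
      CH (Pool.Agent.H49.Ent.cond F.p A True) XJ (fun ω => (Xp ω, (R' ω, F.W ω))) := by
    rw [hXJ]
    exact a6
  rw [← hFv] at hcn ⊢
  rw [← hGf, ← hXJ]
  -- `px`
  have hpx : (∑ i ∈ range r, (nf i - sn i x' + 8 * ((i : ℝ) + 1) * φ) * Real.log 2) * J ≤
      r * Δ * J + 20 * (r : ℝ) ^ 2 * φ * J := by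
    have s1 : ∑ i ∈ range r, (nf i - sn i x' + 8 * ((i : ℝ) + 1) * φ) * Real.log 2 ≤
        ∑ i ∈ range r, (Δ + 8 * ((i : ℝ) + 1) * φ) := by
      refine Finset.sum_le_sum fun i hi => ?_
      rw [mem_range] at hi
      have e1 := N.nf0 i hi
      have e2 := N.nfΔ i hi
      have e3 : 0 ≤ 8 * ((i : ℝ) + 1) * φ := by positivity
      have e4 : (nf i - sn i x' + 8 * ((i : ℝ) + 1) * φ) * Real.log 2 ≤
          (nf i - sn i x' + 8 * ((i : ℝ) + 1) * φ) * 1 :=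
        mul_le_mul_of_nonneg_left hl2' (by linarith)
      linarith
    have s2 := sum_loss r hφ.le
    have s3 : ∑ i ∈ range r, (Δ + 8 * ((i : ℝ) + 1) * φ) =
        r * Δ + ∑ i ∈ range r, 8 * ((i : ℝ) + 1) * φ := by
      rw [Finset.sum_add_distrib, Finset.sum_const, card_range, nsmul_eq_mul]
    have s4 := mul_le_mul_of_nonneg_right (s1.trans (s3.le.trans (add_le_add le_rfl s2))) hJ0
    linarith
  have b9 : CH (Pool.Agent.H49.Ent.cond F.p A True) Xp (fun ω => (R' ω, F.W ω)) ≤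
      CH (Pool.Agent.H49.Ent.cond F.p A True) Xp (fun ω => ((), (R' ω, F.W ω))) :=
    CH_mono_cond h0 fun ω ω' _ _ hh => Prod.ext rfl hh
  -- the positions given the record of `zw`
  have b5 : CH (Pool.Agent.H49.Ent.cond F.p A True) XJ (fun ω => (Xp ω, (zw ω, F.W ω))) ≤
      k * J + (Gf + η * J) :=
    CH_tr h0 XJ (le_trans (CH_mono_cond h0 fun ω ω' _ _ hh => by
      simp only [Prod.mk.injEq] at hh
      exact hh.2.1) d5) a5 fun ω ω' _ _ hh => by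
        simp only [Prod.mk.injEq] at hh ⊢
        exact ⟨hh.2.1, hh.1, hh.2.2.2⟩
  have b5' : CH (Pool.Agent.H49.Ent.cond F.p A True) Xp (fun ω => (XJ ω, (zw ω, F.W ω))) ≤
      k * J + η * J :=
    CH_tr h0 Xp (le_trans (CH_mono_cond h0 fun ω ω' _ _ hh => by
      simp only [Prod.mk.injEq] at hh
      exact hh.2.1) d5) a5' fun ω ω' _ _ hh => by
        simp only [Prod.mk.injEq] at hh ⊢
        exact ⟨hh.2.1, hh.1, hh.2.2.2⟩
  have a11 : CH (Pool.Agent.H49.Ent.cond F.p A True) N2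
      (fun ω => (N1 ω, (XJ ω, (zw ω, F.W ω)))) ≤
      CH (Pool.Agent.H49.Ent.cond F.p A True) N2 (fun ω => (XJ ω, (Rj ω, F.W ω))) + κn * J := by
    rw [hXJ]
    exact a11
  exact ⟨h0, by linarith, by linarith, by linarith, by linarith, by linarith, huq,
    by linarith, by linarith, by linarith, by linarith, hqp, by linarith, by linarith,
    by linarith, by linarith, by linarith, by linarith, by linarith⟩

end Pool.VT83
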