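import Pool.Agent.H16.ROW.Cv
import Pool.Agent.H3.SWP.Swg
import Pool.Agent.H80.ASB.Cb1
import Pool.Agent.H56.ASM.Jt

/-!
# The windows with a thin target below another place, more than one contact coordinate: the parts

`VtF`, `VtL`: the place 2 is steeper than the target, the places 0 and 1 have slope one; full rate,
small rate of the target. `VtB0`, `VtB1`: the place 1 is steeper than the target; the place 2 has
closed labels of its level over the place 0, or labels of this precision are absent. `pTwo_lt`,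
`lTvL_of`: `PTwo (b < a)`, `LTvX FasL 4` from the parts.
-/

set_option autoImplicit false

namespace Pool.VT83

open Pool.Agent.H49.Ent Pool.Agent.H32.Dense Pool.STK Pool.KA Pool.KSAT Pool.K2S Pool.PB
open Pool.GEN Pool.PKG Pool.SW Pool.ALT Pool.ASM
open Pool.LA91 (sumQ HerQ aePG_sum her_sum)

/-- **A class theorem of void windows** under a condition with amounts, with some property. -/
def VodP (n : ℕ) (Φ : (ℕ → Kg) → (ℕ → ℝ) → Prop) {Lm : Type} (Z : (ℕ → ℝ) → Lm → PropW n) : Prop :=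
  ∃ (ι : Type) (_ : Countable ι) (Q : PropG n ι), AePG n Q ∧ HerQ Q ∧
    ∀ h : ℝ, 0 < h → h ≤ 1 → ∀ (Sl : ℕ → ℝ) (κ : ℕ → Kg), Φ κ Sl → KgT n κ Sl →
      VoidZ n h Sl κ Q (Z Sl)

/-- **Full rate and small rate.** -/
theorem cavP_rt {n : ℕ} {Φ : (ℕ → Kg) → (ℕ → ℝ) → Prop} {W : PropW n}
    (Adm : (ℕ → ℝ) → AltJ → PropW n) (β : (ℕ → ℝ) → ℝ)
    (hA : VodP n Φ fun Sl (b : PosR × ℕ) => FulR (Adm Sl) (β Sl) b.1 b.2)
    (hB : ∃ (ι : Type) (_ : Countable ι) (Q : PropG n ι), AePG n Q ∧ HerQ Q ∧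
      ∀ h : ℝ, 0 < h → h ≤ 1 → ∀ (Sl : ℕ → ℝ) (κ : ℕ → Kg), Φ κ Sl → KgT n κ Sl →
        ∀ (b : PosR) (D : ℕ), VoidZ n h Sl κ Q
          (fun e : PosR => LowE (Adm Sl) (β Sl - b) D e)) : CavP n Φ W := by
  obtain ⟨ι, hc, Q, hQ, hh, H⟩ := hA
  obtain ⟨ι', hc', Q', hQ', hh', H'⟩ := hB
  refine ⟨(ι ⊕ ι') ⊕ AltI, inferInstance, sumQ (sumQ Q Q') (AltQ : PropG n AltI),
    aePG_sum (aePG_sum hQ hh hQ') (her_sum hh hh') (aePG_alt n),
    her_sum (her_sum hh hh') (her_alt n), fun h h0 h1 Sl κ hS hK => ?_⟩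
  refine CasV.rt (Adm Sl) (β Sl) (fun _ _ _ _ _ _ _ _ _ _ hq => allQ_inr hq) ?_ fun β' hβ' D => ?_
  · have h2 : CasV n h Sl κ Q (AndW W (FulA (Adm Sl) (β Sl))) :=
      CasV.leaf (H h h0 h1 Sl κ hS hK) fun _ _ _ _ _ _ _ _ _ _ _ _ hW b => hW.2 _ _ b.1.2
    exact h2.inl.inl
  · have h2 := H' h h0 h1 Sl κ hS hK ⟨β Sl - β', by linarith⟩ D
    have e : β Sl - (β Sl - β') = β' := by ring
    simp only [e] at h2
    have h3 : CasV n h Sl κ Q' (AndW W (LowR (Adm Sl) β' D)) :=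
      CasV.leaf h2 fun _ _ _ _ _ _ _ _ _ _ _ _ hW e => hW.2.e e
    exact h3.inr.inl

/-- The slopes and the kind: the place 2 is steeper than the target, `k` its kind. -/
def Nv2 (k : Kg) (κ : ℕ → Kg) (Sl : ℕ → ℝ) : Prop :=
  κ 2 = k ∧ Sl 0 = 1 ∧ Sl 1 = 1 ∧ 1 < Sl 3 ∧ Sl 3 < Sl 2

/-- The place 1 is steeper than the target. -/
def Nv1 (k : Kg) (κ : ℕ → Kg) (Sl : ℕ → ℝ) : Prop :=
  κ 1 = k ∧ Sl 0 = 1 ∧ Sl 2 = 1 ∧ 1 < Sl 3 ∧ Sl 3 < Sl 1

/-- **The place 2 of the kind `k`, full rate** of the target: void. -/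
def VtF (k : Kg) : Prop :=
  VodP 4 (Nv2 k) fun Sl (b : PosR × ℕ) => FulR (AdmN 2) (Sl 3 * Real.log 2) b.1 b.2

/-- **The place 2 of the kind `k`, small rate** of the target: void. -/
def VtL (k : Kg) : Prop :=
  ∃ (ι : Type) (_ : Countable ι) (Q : PropG 4 ι), AePG 4 Q ∧ HerQ Q ∧
    ∀ h : ℝ, 0 < h → h ≤ 1 → ∀ (Sl : ℕ → ℝ) (κ : ℕ → Kg), Nv2 k κ Sl → KgT 4 κ Sl →
      ∀ (b : PosR) (D : ℕ), VoidZ 4 h Sl κ Q
        (fun e : PosR => LowE (AdmN 2) (Sl 3 * Real.log 2 - b) D e)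

/-- **The place 1 steeper than the target**, closed labels of the place 2 over the place 0: void. -/
def VtB0 (k : Kg) : Prop := CavP 4 (Nv1 k) (fun S P θ c Pt r L T κ G g =>
  Pool.SWP.SwQ 1 0 S P θ c Pt r L T κ G g)

/-- **The place 1 steeper than the target**, no labels of the place 2 over the place 0 of its level:
void. -/
def VtB1 (k : Kg) : Prop := CavP 4 (Nv1 k) (fun S P θ c Pt r L T κ G g => Pool.SWP.SwQ 1 1 S P θ c Pt r L T κ G g)

/-- The place 2 of the kind `k`. -/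
theorem vt_two {k : Kg} (hF : VtF k) (hL : VtL k) : CavP 4 (Nv2 k) (TruW 4) :=
  cavP_rt (fun _ => AdmN 2) (fun Sl => Sl 3 * Real.log 2) hF hL

/-- The place 1 steeper than the target. -/
theorem vt_one {k : Kg} (h0 : VtB0 k) (h1 : VtB1 k) : CavP 4 (Nv1 k) (TruW 4) := by
  refine CavP.prp (Pool.SWP.aePG_sw 4) (Pool.SWP.her_sw 4) 1 ?_
  exact CavP.or (W := AndW (TruW 4) fun S P θ c Pt r L T κ G g =>
    ∃ k₀, Pool.SWP.SwQ 1 k₀ S P θ c Pt r L T κ G g)
    (fun S P θ c Pt r L T κ G g => Pool.SWP.SwQ 1 0 S P θ c Pt r L T κ G g)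
    (h0.imp fun S P θ c Pt r L T κ G g hw => hw.2)
    (h1.imp fun S P θ c Pt r L T κ G g hw => by
      obtain ⟨⟨-, k₀, hk⟩, h2⟩ := hw
      obtain ⟨h3, -⟩ := hk (by norm_num)
      rcases (show k₀ = 0 ∨ k₀ = 1 by omega) with rfl | rfl
      · exact absurd hk h2
      · exact hk)

/-- **The windows of all packages are void** from the cases at the window. -/
theorem cavP_vd {Φ : (ℕ → Kg) → (ℕ → ℝ) → Prop} (H : CavP 4 Φ (TruW 4)) {κ : ℕ → Kg}
    {Φ' : (ℕ → ℝ) → Prop} (h : ∀ Sl, Φ' Sl → Φ κ Sl ∧ KgT 4 κ Sl) : VdP κ Φ' := by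
  intro hn S P r P' Λ PB Hp hTop hF hZ h' hh hh1 o
  obtain ⟨ι, _, Q, hQ, -, Hc⟩ := H
  exact void_of_c (κ := κ) hQ Hp hTop hF h' Φ'
    (fun Sl hS _ _ => Hc h' hh hh1 Sl κ (h Sl hS).1 (h Sl hS).2) o

/-- The kinds and the slopes at two contact coordinates. -/
theorem nm2_kgt {R : ℝ → ℝ → Prop} {k : Kg} (hk : k = .thin ∨ k = .sta ∨ k = .stp) {Sl : ℕ → ℝ}
    (h : Nm2 2 1 R k Sl) : KgT 4 (kg4 .one .one k .thin) Sl := by
  have e0 : kg4 .one .one k .thin 0 = .one := rfl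
  have e1 : kg4 .one .one k .thin 1 = .one := rfl
  have e2 : kg4 .one .one k .thin 2 = k := rfl
  have e3 : kg4 .one .one k .thin 3 = .thin := rfl
  have hl := h.sl
  have h3 := h.s3
  have hk1 : k ≠ .one := by rcases hk with rfl | rfl | rfl <;> simp
  have hk2 : k ≠ .any := by rcases hk with rfl | rfl | rfl <;> simp
  refine ⟨e0, e3, fun l hl' => ?_, fun l hl' => ?_, h3, fun l hl' => ?_, fun l hl' he => ?_,
    fun l hl' he => ?_⟩
  · interval_cases l
    · rw [e0]; simp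
    · rw [e1]; simp
    · rw [e2]; exact hk2
    · rw [e3]; simp
  · interval_cases l
    · rw [e0]
      exact ⟨fun _ => h.s0, fun _ => rfl⟩
    · rw [e1]
      exact ⟨fun _ => h.sj, fun _ => rfl⟩
    · rw [e2]
      exact ⟨fun h5 => absurd h5 hk1, fun h5 => by linarith⟩
    · rw [e3]
      exact ⟨fun h5 => absurd h5 (by simp), fun h5 => by linarith⟩
  · interval_cases l
    · exact h.s0.ge
    · exact h.sj.ge
    · exact hl.le
    · exact h3.le
  · interval_cases l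
    · rw [e0] at he; simp at he
    · rw [e1] at he; simp at he
    · rw [e2] at he
      exact h.sta he
    · rw [e3] at he; simp at he
  · interval_cases l
    · rw [e0] at he; simp at he
    · rw [e1] at he; simp at he
    · rw [e2] at he
      exact h.stp he
    · rw [e3] at he; simp at he

theorem nm2_kgt' {R : ℝ → ℝ → Prop} {k : Kg} (hk : k = .thin ∨ k = .sta) {Sl : ℕ → ℝ}
    (h : Nm2 1 2 R k Sl) : KgT 4 (kg4 .one k .one .thin) Sl := by
  have e0 : kg4 .one k .one .thin 0 = .one := rfl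
  have e1 : kg4 .one k .one .thin 1 = k := rfl
  have e2 : kg4 .one k .one .thin 2 = .one := rfl
  have e3 : kg4 .one k .one .thin 3 = .thin := rfl
  have hl := h.sl
  have h3 := h.s3
  have hk1 : k ≠ .one := by rcases hk with rfl | rfl <;> simp
  have hk2 : k ≠ .any := by rcases hk with rfl | rfl <;> simp
  refine ⟨e0, e3, fun l hl' => ?_, fun l hl' => ?_, h3, fun l hl' => ?_, fun l hl' he => ?_,
    fun l hl' he => ?_⟩
  · interval_cases l
    · rw [e0]; simp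
    · rw [e1]; exact hk2
    · rw [e2]; simp
    · rw [e3]; simp
  · interval_cases l
    · rw [e0]
      exact ⟨fun _ => h.s0, fun _ => rfl⟩
    · rw [e1]
      exact ⟨fun h5 => absurd h5 hk1, fun h5 => by linarith⟩
    · rw [e2]
      exact ⟨fun _ => h.sj, fun _ => rfl⟩
    · rw [e3]
      exact ⟨fun h5 => absurd h5 (by simp), fun h5 => by linarith⟩
  · interval_cases l
    · exact h.s0.ge
    · exact hl.le
    · exact h.sj.ge
    · exact h3.le
  · interval_cases l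
    · rw [e0] at he; simp at he
    · rw [e1] at he
      exact h.sta he
    · rw [e2] at he; simp at he
    · rw [e3] at he; simp at he
  · interval_cases l
    · rw [e0] at he; simp at he
    · rw [e1] at he
      exact h.stp he
    · rw [e2] at he; simp at he
    · rw [e3] at he; simp at he

/-- A kind at the place 2. -/
theorem vd_two {k : Kg} (hk : k = .thin ∨ k = .sta ∨ k = .stp) (hF : VtF k) (hL : VtL k) :
    VdP (kg4 .one .one k .thin) (Nm2 2 1 (fun a b => b < a) k) :=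
  cavP_vd (vt_two hF hL) fun _ h => ⟨⟨rfl, h.s0, h.sj, h.s3, h.rel⟩, nm2_kgt hk h⟩

/-- A kind at the place 1. -/
theorem vd_one {k : Kg} (hk : k = .thin ∨ k = .sta) (h0 : VtB0 k) (h1 : VtB1 k) :
    VdP (kg4 .one k .one .thin) (Nm2 1 2 (fun a b => b < a) k) :=
  cavP_vd (vt_one h0 h1) fun _ h => ⟨⟨rfl, h.s0, h.sj, h.s3, h.rel⟩, nm2_kgt' hk h⟩

/-- **`PTwo (b < a)` from the named parts.** -/
theorem pTwo_lt (hF : VtF .thin) (hFs : VtF .sta) (hFp : VtF .stp) (hL : VtL .thin)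
    (hLs : VtL .sta) (hLp : VtL .stp) (h0 : VtB0 .thin) (h1 : VtB1 .thin) (h0s : VtB0 .sta)
    (h1s : VtB1 .sta) : PTwo fun a b => b < a where
  t2 := vd_two (by simp) hF hL
  s2 := vd_two (by simp) hFs hLs
  p2 := vd_two (by simp) hFp hLp
  t1 := vd_one (by simp) h0 h1
  s1 := vd_one (by simp) h0s h1s

/-- **`LTvX FasL 4` from the named parts.** -/
theorem lTvL_of (hF : VtF .thin) (hFs : VtF .sta) (hFp : VtF .stp) (hL : VtL .thin)
    (hLs : VtL .sta) (hLp : VtL .stp) (h0 : VtB0 .thin) (h1 : VtB1 .thin) (h0s : VtB0 .sta)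
    (h1s : VtB1 .sta) : LTvX FasL 4 := lTv_of_k (pTwo_lt hF hFs hFp hL hLs hLp h0 h1 h0s h1s)

end Pool.VT83
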