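import Pool.Agent.H44.V0F.Law2
import Pool.Agent.H14.S6.PRM
import Pool.Agent.H57.AVG.Prg

/-!
# Near digits of the base coordinates with a side path, from the law of the pair

`VSd`: `VLaw2` for the pair of objects (target, side), the side digits `sd` few bits given the record
at `a` and the near path of the base coordinates, and equivalent to the near digits `M2` of the side
coordinate given the far path. All the velocities `Up` are in the context. `VSd.mx`, `VSd.mj`,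
`VSd.vf`: the fields of the event theorem.
-/

set_option autoImplicit false

namespace Pool.VT83

open Finset Real
open Pool.Agent.H49.Ent Pool.Agent.H32.Dense Pool.STK Pool.M5 Pool.PRM
open Pool.KVA (MI)
open Pool.V0F (VLaw2 CH_ge CH_tr)
open Pool.AVG57 (CH_pair_ctx MI_few)

section

variable {Ω : Type} [Fintype Ω] {p : Ω → ℝ}

section mi

variable {α β γ δ : Type}

/-- The mutual information, a part of the first variable into the condition. -/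
theorem mi_left (h0 : ∀ ω, 0 ≤ p ω) (R : Ω → α) (X : Ω → β) (Z : Ω → γ) (W : Ω → δ) :
    MI p R X (fun ω => (Z ω, W ω)) ≤ MI p (fun ω => (Z ω, R ω)) X W := by
  have h1 := MI_chain_left h0 Z R X W
  have h2 := MI_nonneg h0 Z X W
  linarith

/-- A part of the second variable into the condition. -/
theorem mi_right (h0 : ∀ ω, 0 ≤ p ω) (R : Ω → α) (X : Ω → β) (Z : Ω → γ) (W : Ω → δ) :
    MI p R X (fun ω => (Z ω, W ω)) ≤ MI p R (fun ω => (Z ω, X ω)) W := by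
  have h1 := MI_chain_right h0 R Z X W
  have h2 := MI_nonneg h0 R Z W
  linarith

/-- Less in the second variable. -/
theorem mi_sub (h0 : ∀ ω, 0 ≤ p ω) (R : Ω → α) {X : Ω → β} {X' : Ω → γ} {W : Ω → δ}
    (h : Det p (fun ω => (X' ω, W ω)) X) : MI p R X W ≤ MI p R X' W := by
  have h1 := MI_le_add h0 R X X' W
  rw [CH_eq_zero h0 h] at h1
  linarith

end mi

variable {ζ ρ₁ ρ₂ ρ₃ ρ₄ υ ξ₁ ξ₂ ξ₃ ν₁ ν₂ μ₁ μ₂ σ ξ₆ : Type} {zw : Ω → ζ} {Rj : Ω → ρ₁}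
  {Rx : Ω → ρ₂} {Ra : Ω → ρ₃} {R' : Ω → ρ₄} {y : Ω → υ} {Xq : Ω → ξ₁} {Xp : Ω → ξ₂} {Up : Ω → ξ₃}
  {N1 : Ω → ν₁} {N2 : Ω → ν₂} {M1 : Ω → μ₁} {M2 : Ω → μ₂} {sd : Ω → σ} {XJ : Ω → ξ₆}
  {Fv Gf κ : ℝ}

/-- **The inputs.** `N1`, `N2`: digits of the target; `M1`, `M2`: digits of the side coordinate. -/
structure VSd (p : Ω → ℝ) (zw : Ω → ζ) (Rj : Ω → ρ₁) (Rx : Ω → ρ₂) (Ra : Ω → ρ₃) (R' : Ω → ρ₄)
    (y : Ω → υ) (Xq : Ω → ξ₁) (Xp : Ω → ξ₂) (Up : Ω → ξ₃) (N1 : Ω → ν₁) (N2 : Ω → ν₂)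
    (M1 : Ω → μ₁) (M2 : Ω → μ₂) (sd : Ω → σ) (XJ : Ω → ξ₆) (Fv Gf κ : ℝ) : Prop where
  V : VLaw2 p zw Rj Ra R' y Xq Xp Up Up (fun ω => (N1 ω, M1 ω)) (fun ω => (N2 ω, M2 ω)) XJ Fv Gf κ
  ja : CH p Rj Ra ≤ κ
  xa : CH p Rx Ra ≤ κ
  /-- the side digits from the record at `a` and the near path -/
  sa : CH p sd (fun ω => ((Xq ω, Up ω), (Ra ω, y ω))) ≤ κ
  /-- the side digits and the digits of the side coordinate, given the far path and the near digits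
  of the target -/
  sm : CH p sd (fun ω => (N1 ω, (M2 ω, ((Xp ω, Up ω), (zw ω, y ω))))) ≤ κ
  ms : CH p M2 (fun ω => (sd ω, ((Xp ω, Up ω), (zw ω, y ω)))) ≤ κ
  mm : CH p M1 M2 ≤ κ

namespace VSd

/-- The record at `a` does not see the far positions. -/
theorem ma (h : VSd p zw Rj Rx Ra R' y Xq Xp Up N1 N2 M1 M2 sd XJ Fv Gf κ) :
    MI p Ra Xp (fun ω => ((Xq ω, Up ω), (zw ω, y ω))) ≤ 25 * κ :=
  (mi_sub h.V.h0 Ra fun ω ν _ _ e => by
    simp only [Prod.mk.injEq] at e ⊢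
    exact e.1.1).trans h.V.mx

/-- A variable which is few bits given the record at `a`. -/
theorem mf (h : VSd p zw Rj Rx Ra R' y Xq Xp Up N1 N2 M1 M2 sd XJ Fv Gf κ)
    {δ : Type} {D : Ω → δ} {e : ℝ} (hD : CH p D (fun ω => ((Xq ω, Up ω), (Ra ω, y ω))) ≤ e) :
    MI p D Xp (fun ω => ((Xq ω, Up ω), (zw ω, y ω))) ≤ 25 * κ + e := by
  have h0 := h.V.h0
  have h1 := MI_le_add' h0 D Ra Xp (fun ω => ((Xq ω, Up ω), (zw ω, y ω)))
  have h2 : CH p D (fun ω => (Ra ω, ((Xq ω, Up ω), (zw ω, y ω)))) ≤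
      CH p D (fun ω => ((Xq ω, Up ω), (Ra ω, y ω))) := CH_mono_cond h0 fun ω ν _ _ e => by
    simp only [Prod.mk.injEq] at e ⊢
    tauto
  have h3 := h.ma
  linarith

theorem sx (h : VSd p zw Rj Rx Ra R' y Xq Xp Up N1 N2 M1 M2 sd XJ Fv Gf κ) :
    CH p (fun ω => (sd ω, Rx ω)) (fun ω => ((Xq ω, Up ω), (Ra ω, y ω))) ≤ κ + κ := by
  have h0 := h.V.h0
  refine (CH_subadd h0 sd Rx _).trans (add_le_add h.sa (le_trans (CH_mono_cond h0 ?_) h.xa))
  intro ω ν _ _ e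
  simp only [Prod.mk.injEq] at e
  exact e.2.1

/-- **The field `mx`.** -/
theorem mx (h : VSd p zw Rj Rx Ra R' y Xq Xp Up N1 N2 M1 M2 sd XJ Fv Gf κ) :
    MI p Rx Xp (fun ω => (Xq ω, (zw ω, ((Up ω, sd ω), y ω)))) ≤ 27 * κ := by
  have h0 := h.V.h0
  have h1 := h.mf h.sx
  have h2 := mi_left h0 Rx Xp sd (fun ω => ((Xq ω, Up ω), (zw ω, y ω)))
  have h3 := MI_few h0 Rx Xp (W := fun ω => (Xq ω, (zw ω, ((Up ω, sd ω), y ω))))
    (W' := fun ω => (sd ω, ((Xq ω, Up ω), (zw ω, y ω)))) (e₁ := 0) (e₂ := 0)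
    (le_of_eq (CH_eq_zero h0 fun ω ν _ _ e => by
      simp only [Prod.mk.injEq] at e ⊢
      tauto)) (le_of_eq (CH_eq_zero h0 fun ω ν _ _ e => by
      simp only [Prod.mk.injEq] at e ⊢
      tauto))
  linarith

/-- **The field `vf`**, for any digits `D` which the last record knows. -/
theorem vf (h : VSd p zw Rj Rx Ra R' y Xq Xp Up N1 N2 M1 M2 sd XJ Fv Gf κ)
    {ε : Type} {D : Ω → ε} {Fw : ℝ} (hV : CH p D (fun ω => (R' ω, y ω)) ≤ κ)
    (hf : Fw - κ ≤ CH p D (fun ω => (Xq ω, (Ra ω, y ω)))) :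
    Fw - 12 * κ ≤ CH p D (fun ω => (Xq ω, (Rx ω, ((Up ω, sd ω), y ω)))) := by
  have h0 := h.V.h0
  have h1 := h.V.vf hV hf
  have h2 := CH_ge h0 D (fun ω => (sd ω, Rx ω)) (fun ω => ((Xq ω, Up ω), (Ra ω, y ω)))
  have h3 := h.sx
  have h4 : CH p D (fun ω => ((sd ω, Rx ω), ((Xq ω, Up ω), (Ra ω, y ω)))) ≤
      CH p D (fun ω => (Xq ω, (Rx ω, ((Up ω, sd ω), y ω)))) := CH_mono_cond h0 fun ω ν _ _ e => by
    simp only [Prod.mk.injEq] at e ⊢
    tauto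
  linarith

/-- The far positions, given the digits of the target. -/
theorem mj1 (h : VSd p zw Rj Rx Ra R' y Xq Xp Up N1 N2 M1 M2 sd XJ Fv Gf κ) :
    MI p Rj Xp (fun ω => (N1 ω, (sd ω, ((Xq ω, Up ω), (zw ω, y ω))))) ≤ 29 * κ := by
  have h0 := h.V.h0
  obtain ⟨G, hG⟩ : ∃ G : Ω → _, G = fun ω => ((Xq ω, Up ω), (Ra ω, y ω)) := ⟨_, rfl⟩
  have c1 : CH p (fun ω => (sd ω, Rj ω)) G ≤ κ + κ := by
    refine (CH_subadd h0 sd Rj _).trans (add_le_add (by rw [hG]; exact h.sa)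
      (le_trans (CH_mono_cond h0 ?_) h.ja))
    intro ω ν _ _ e
    rw [hG] at e
    simp only [Prod.mk.injEq] at e
    exact e.2.1
  have c2 : CH p N1 G ≤ κ + κ := CH_tr h0 N1 (A := Rj) (W' := fun ω => (Xq ω, (Rj ω, y ω)))
    (le_trans (CH_mono_cond h0 fun ω ν _ _ e => by
      rw [hG] at e
      simp only [Prod.mk.injEq] at e
      exact e.2.1) h.ja) (le_trans (CH_mono_left h0 fun ω ν _ _ e =>
        (Prod.ext_iff.mp (Prod.ext_iff.mp e).1).1) h.V.n1) fun ω ν _ _ e => by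
      rw [hG] at e
      simp only [Prod.mk.injEq] at e ⊢
      tauto
  have c3 := CH_subadd h0 N1 (fun ω => (sd ω, Rj ω)) G
  have h1 := h.mf (D := fun ω => (N1 ω, (sd ω, Rj ω))) (e := 4 * κ) (by
    rw [← hG]
    linarith)
  have h2 := mi_left h0 Rj Xp sd (fun ω => ((Xq ω, Up ω), (zw ω, y ω)))
  have h3 := mi_left h0 (fun ω => (sd ω, Rj ω)) Xp N1 (fun ω => ((Xq ω, Up ω), (zw ω, y ω)))
  have h4 := mi_left h0 Rj Xp sd (fun ω => (N1 ω, ((Xq ω, Up ω), (zw ω, y ω))))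
  have h5 := MI_few h0 Rj Xp (W := fun ω => (N1 ω, (sd ω, ((Xq ω, Up ω), (zw ω, y ω)))))
    (W' := fun ω => (sd ω, (N1 ω, ((Xq ω, Up ω), (zw ω, y ω))))) (e₁ := 0) (e₂ := 0)
    (le_of_eq (CH_eq_zero h0 fun ω ν _ _ e => by
      simp only [Prod.mk.injEq] at e ⊢
      tauto)) (le_of_eq (CH_eq_zero h0 fun ω ν _ _ e => by
      simp only [Prod.mk.injEq] at e ⊢
      tauto))
  linarith

/-- The digits of the target, given the far positions. -/
theorem mj2 (h : VSd p zw Rj Rx Ra R' y Xq Xp Up N1 N2 M1 M2 sd XJ Fv Gf κ) :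
    MI p Rj N2 (fun ω => (Xp ω, (N1 ω, (sd ω, ((Xq ω, Up ω), (zw ω, y ω)))))) ≤ 68 * κ := by
  have h0 := h.V.h0
  have hk := h.V.κ0
  obtain ⟨W, hW⟩ : ∃ W : Ω → _, W = fun ω => ((Xq ω, Up ω), (zw ω, y ω)) := ⟨_, rfl⟩
  obtain ⟨B, hB⟩ : ∃ B : Ω → _, B = fun ω => (Xp ω, (N1 ω, (sd ω, W ω))) := ⟨_, rfl⟩
  obtain ⟨C, hC⟩ : ∃ C : Ω → _, C = fun ω => (M2 ω, (Xp ω, ((N1 ω, M1 ω), W ω))) := ⟨_, rfl⟩
  -- the pair
  have a1 := h.V.mj
  have a2 : MI p Rj N2 C ≤ MI p Rj (fun ω => (M2 ω, N2 ω))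
      (fun ω => (Xp ω, ((N1 ω, M1 ω), W ω))) := by
    rw [hC]
    exact mi_right h0 Rj N2 M2 _
  have a3 := mi_right h0 Rj (fun ω => (M2 ω, N2 ω)) Xp (fun ω => ((N1 ω, M1 ω), W ω))
  have a4 : MI p Rj (fun ω => (Xp ω, (M2 ω, N2 ω))) (fun ω => ((N1 ω, M1 ω), W ω)) ≤
      MI p Rj (fun ω => ((Xp ω, Up ω), (N2 ω, M2 ω))) (fun ω => ((N1 ω, M1 ω), W ω)) :=
    mi_sub h0 Rj fun ω ν _ _ e => by
      simp only [Prod.mk.injEq] at e ⊢
      tauto
  have a5 := MI_few h0 Rj (fun ω => ((Xp ω, Up ω), (N2 ω, M2 ω)))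
    (W := fun ω => ((N1 ω, M1 ω), W ω))
    (W' := fun ω => (((Xq ω, Up ω), (N1 ω, M1 ω)), (zw ω, y ω))) (e₁ := 0) (e₂ := 0)
    (le_of_eq (CH_eq_zero h0 fun ω ν _ _ e => by
      rw [hW]
      simp only [Prod.mk.injEq] at e ⊢
      tauto)) (le_of_eq (CH_eq_zero h0 fun ω ν _ _ e => by
      rw [hW] at e
      simp only [Prod.mk.injEq] at e ⊢
      tauto))
  -- the side digits and the digits of the side coordinate
  have b1 : CH p M2 B ≤ κ := le_trans (CH_mono_cond h0 fun ω ν _ _ e => by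
    rw [hB, hW] at e
    simp only [Prod.mk.injEq] at e ⊢
    tauto) h.ms
  have b2 : CH p M1 (fun ω => (M2 ω, B ω)) ≤ κ := le_trans (CH_mono_cond h0
    fun ω ν _ _ e => (Prod.ext_iff.mp e).1) h.mm
  have b3 : CH p sd C ≤ κ := le_trans (CH_mono_cond h0 fun ω ν _ _ e => by
    rw [hC, hW] at e
    simp only [Prod.mk.injEq] at e ⊢
    tauto) h.sm
  have b4 : CH p B C ≤ κ := by
    have c1 := CH_le_add h0 B sd C
    rw [CH_eq_zero h0 (X := B) (W := fun ω => (sd ω, C ω)) (fun ω ν _ _ e => by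
      rw [hC] at e
      rw [hB]
      simp only [Prod.mk.injEq] at e ⊢
      tauto)] at c1
    linarith
  have b5 : CH p C B ≤ κ + κ := by
    have c1 := CH_le_add h0 C (fun ω => (M1 ω, M2 ω)) B
    rw [CH_eq_zero h0 (X := C) (W := fun ω => ((M1 ω, M2 ω), B ω)) (fun ω ν _ _ e => by
      rw [hB] at e
      rw [hC]
      simp only [Prod.mk.injEq] at e ⊢
      tauto), CH_chain h0 M1 M2] at c1
    linarith
  have b6 := MI_few h0 Rj N2 b4 b5
  rw [hW] at hB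
  rw [← hB]
  linarith

/-- **The field `mj`.** -/
theorem mj (h : VSd p zw Rj Rx Ra R' y Xq Xp Up N1 N2 M1 M2 sd XJ Fv Gf κ) :
    MI p Rj (fun ω => (Xp ω, N2 ω))
      (fun ω => ((Xq ω, N1 ω), (zw ω, ((Up ω, sd ω), y ω)))) ≤ 97 * κ := by
  have h0 := h.V.h0
  have h1 := h.mj1
  have h2 := h.mj2
  have h3 := MI_chain_right h0 Rj Xp N2 (fun ω => (N1 ω, (sd ω, ((Xq ω, Up ω), (zw ω, y ω)))))
  have h4 := MI_few h0 Rj (fun ω => (Xp ω, N2 ω))
    (W := fun ω => ((Xq ω, N1 ω), (zw ω, ((Up ω, sd ω), y ω))))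
    (W' := fun ω => (N1 ω, (sd ω, ((Xq ω, Up ω), (zw ω, y ω))))) (e₁ := 0) (e₂ := 0)
    (le_of_eq (CH_eq_zero h0 fun ω ν _ _ e => by
      simp only [Prod.mk.injEq] at e ⊢
      tauto)) (le_of_eq (CH_eq_zero h0 fun ω ν _ _ e => by
      simp only [Prod.mk.injEq] at e ⊢
      tauto))
  linarith

end VSd

/-- **The rows** with a side path: `E` the exact positions of the base coordinates, `P` their
positions to digits which the last record knows, `n1`, `n2` digits of the position of the target,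
`M` digits of the position of the side coordinate. -/
theorem row_sd (h0 : ∀ ω, 0 ≤ p ω) {ε₁ ε₂ ε₃ ε₄ μ : Type} {E : Ω → ε₁} {P : Ω → ε₂} {n1 : Ω → ε₃}
    {n2 : Ω → ε₄} {M : Ω → μ} {R₀ e : ℝ}
    (hr : CH p n2 (fun ω => (n1 ω, (M ω, (E ω, (zw ω, y ω))))) ≤ R₀)
    (hM : CH p M (fun ω => (sd ω, (E ω, (P ω, (Up ω, (zw ω, y ω)))))) ≤ e)
    (h1 : CH p n1 (fun ω => (N1 ω, (E ω, (zw ω, y ω)))) ≤ e)
    (h2 : CH p N2 (fun ω => (n2 ω, (E ω, (zw ω, y ω)))) ≤ e)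
    (hz : CH p zw R' ≤ e)
    (hN : CH p (fun ω => (N2 ω, N1 ω)) (fun ω => (P ω, (Up ω, (R' ω, y ω)))) ≤ e)
    (hs : CH p sd (fun ω => (P ω, (Up ω, (R' ω, y ω)))) ≤ e)
    (hE : CH p E (fun ω => (P ω, (zw ω, y ω))) ≤ CH p E (fun ω => (P ω, (R' ω, y ω))) + e)
    (hU : CH p Up (fun ω => (E ω, (P ω, (zw ω, y ω)))) ≤
      CH p Up (fun ω => (E ω, (P ω, (R' ω, y ω)))) + e) :
    CH p N2 (fun ω => (N1 ω, (P ω, (Up ω, (sd ω, (zw ω, y ω)))))) ≤ R₀ + 9 * e := by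
  obtain ⟨B, hB⟩ : ∃ B : Ω → _, B = fun ω => (N1 ω, (P ω, (Up ω, (sd ω, (zw ω, y ω))))) := ⟨_, rfl⟩
  obtain ⟨Z, hZ⟩ : ∃ Z : Ω → _, Z = fun ω => (P ω, (zw ω, y ω)) := ⟨_, rfl⟩
  obtain ⟨Z', hZ'⟩ : ∃ Z' : Ω → _, Z' = fun ω => (P ω, (R' ω, y ω)) := ⟨_, rfl⟩
  have hE : CH p E Z ≤ CH p E Z' + e := by
    rw [hZ, hZ']
    exact hE
  have hU : CH p Up (fun ω => (E ω, Z ω)) ≤ CH p Up (fun ω => (E ω, Z' ω)) + e := by
    rw [hZ, hZ']
    exact hU
  rw [← hB]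
  -- exchange of the exact positions
  have u1 := CH_chain h0 N2 E B
  have u2 := CH_chain h0 E N2 B
  have u3 : CH p (fun ω => (N2 ω, E ω)) B = CH p (fun ω => (E ω, N2 ω)) B :=
    CH_congr h0 (fun ω ω' _ _ e => by
      simp only [Prod.mk.injEq] at e ⊢
      tauto) (fun ω ω' _ _ e => by
      simp only [Prod.mk.injEq] at e ⊢
      tauto) (fun _ _ _ _ e => e) (fun _ _ _ _ e => e)
  -- the positions given the velocities, before
  have p1 : CH p E B ≤ CH p E (fun ω => (Up ω, Z ω)) := CH_mono_cond h0 fun ω ν _ _ e => by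
    rw [hB] at e
    rw [hZ]
    simp only [Prod.mk.injEq] at e ⊢
    tauto
  have p2 := CH_chain h0 E Up Z
  have p3 := CH_chain h0 Up E Z
  have p4 : CH p (fun ω => (E ω, Up ω)) Z = CH p (fun ω => (Up ω, E ω)) Z :=
    CH_congr h0 (fun ω ω' _ _ e => by
      simp only [Prod.mk.injEq] at e ⊢
      tauto) (fun ω ω' _ _ e => by
      simp only [Prod.mk.injEq] at e ⊢
      tauto) (fun _ _ _ _ e => e) (fun _ _ _ _ e => e)
  -- and after
  have q2 := CH_chain h0 E Up Z'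
  have q3 := CH_chain h0 Up E Z'
  have q4 : CH p (fun ω => (E ω, Up ω)) Z' = CH p (fun ω => (Up ω, E ω)) Z' :=
    CH_congr h0 (fun ω ω' _ _ e => by
      simp only [Prod.mk.injEq] at e ⊢
      tauto) (fun ω ω' _ _ e => by
      simp only [Prod.mk.injEq] at e ⊢
      tauto) (fun _ _ _ _ e => e) (fun _ _ _ _ e => e)
  have q5 : CH p Up Z' ≤ e + CH p Up Z := CH_tr h0 Up (A := zw) (W' := Z) (le_trans
    (CH_mono_cond h0 fun ω ν _ _ e => by
      rw [hZ'] at e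
      simp only [Prod.mk.injEq] at e
      exact e.2.1) hz) le_rfl fun ω ν _ _ e => by
      rw [hZ'] at e
      rw [hZ]
      simp only [Prod.mk.injEq] at e ⊢
      tauto
  -- the last record with the side digits
  obtain ⟨C, hC⟩ : ∃ C : Ω → _, C = fun ω => (P ω, (Up ω, (R' ω, y ω))) := ⟨_, rfl⟩
  rw [← hC] at hN hs
  have r1 := CH_ge h0 E (fun ω => ((N2 ω, N1 ω), (sd ω, zw ω))) C
  have r2 : CH p (fun ω => ((N2 ω, N1 ω), (sd ω, zw ω))) C ≤ e + (e + e) :=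
    (CH_subadd h0 _ _ _).trans (add_le_add hN ((CH_subadd h0 _ _ _).trans (add_le_add hs
      (le_trans (CH_mono_cond h0 fun ω ν _ _ e => by
        rw [hC] at e
        simp only [Prod.mk.injEq] at e
        exact e.2.2.1) hz))))
  have r3 : CH p E (fun ω => (((N2 ω, N1 ω), (sd ω, zw ω)), C ω)) ≤
      CH p E (fun ω => (N2 ω, B ω)) := CH_mono_cond h0 fun ω ν _ _ e => by
    rw [hC] at e
    rw [hB]
    simp only [Prod.mk.injEq] at e ⊢
    tauto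
  have r4 : CH p E (fun ω => (Up ω, Z' ω)) ≤ CH p E C := CH_mono_cond h0 fun ω ω' _ _ e => by
    rw [hZ'] at e
    rw [hC]
    simp only [Prod.mk.injEq] at e ⊢
    tauto
  -- the row over the exact positions
  have s1 := CH_le_add h0 N2 n2 (fun ω => (E ω, B ω))
  have s2 : CH p N2 (fun ω => (n2 ω, (E ω, B ω))) ≤ CH p N2 (fun ω => (n2 ω, (E ω, (zw ω, y ω)))) :=
    CH_mono_cond h0 fun ω ν _ _ e => by
      rw [hB] at e
      simp only [Prod.mk.injEq] at e ⊢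
      tauto
  have s3 : CH p n1 (fun ω => (E ω, B ω)) ≤ e := le_trans (CH_mono_cond h0 fun ω ν _ _ e => by
    rw [hB] at e
    simp only [Prod.mk.injEq] at e ⊢
    tauto) h1
  have s4 : CH p M (fun ω => (E ω, B ω)) ≤ e := le_trans (CH_mono_cond h0 fun ω ν _ _ e => by
    rw [hB] at e
    simp only [Prod.mk.injEq] at e ⊢
    tauto) hM
  have s5 : CH p n2 (fun ω => (E ω, B ω)) ≤ (e + e) + R₀ :=
    CH_tr h0 n2 (A := fun ω => (n1 ω, M ω)) (W' := fun ω => (n1 ω, (M ω, (E ω, (zw ω, y ω)))))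
      ((CH_subadd h0 _ _ _).trans (add_le_add s3 s4)) hr fun ω ν _ _ e => by
        rw [hB] at e
        simp only [Prod.mk.injEq] at e ⊢
        tauto
  linarith

end

end Pool.VT83
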