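import Pool.Agent.H44.V0F.Ev4
import Pool.Agent.H83.VT.Law

/-!
# Closed gradient on one event, general context

`vt_gen`: `v0_ev` for a context `z`, a function of the line and of the window, with the mutual
informations as hypotheses, all errors small.
-/

set_option autoImplicit false

namespace Pool.VT83

open Finset Real MvPolynomial
open Pool.Agent.H49.Ent Pool.Agent.H32.Dense
open Pool.STK hiding pr2
open Pool.KA Pool.KSAT Pool.K2S Pool.PB Pool.S6C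
open Pool.GEN Pool.CHT Pool.CHX Pool.ISO Pool.LA91 Pool.AVG71 Pool.AVG5 Pool.D2F2 Pool.AVG57
open Pool.PB.Trl (rt rt_mem t_rt)
open Pool.D2R (AdW gnh hgt GrdE chs)
open Pool.KVA (MI)
open Pool.KAF (rs Pr)
open Pool.BFL (Pb)
open Pool.V0F

/-- **Closed gradient in all directions**, on one event, all errors at most `τ X`, any context. -/
theorem vt_gen (r K : ℕ) (cc ε : ℝ) (hcc : 0 < cc) (hε : 0 < ε) :
    ∃ (κ₂ κ π₀ τ ε₀ Ca : ℝ) (j₀ X₀ : ℕ), 0 < κ₂ ∧ κ₂ ≤ 1 ∧ 0 < κ ∧ κ ≤ 1 ∧ 0 < π₀ ∧ 0 < τ ∧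
      0 < ε₀ ∧ 0 ≤ Ca ∧
      ∀ {m J : ℕ} {F : Fam m J} {c : ℕ → Fin m} {ks n q w W X mm D : ℕ} {γ : ℕ → ℕ}
        {B : F.Ω → Prop} {G : ℕ → PtT F → ℕ → MvPolynomial (Option (Fin m)) ℝ}
        {H : LnT F → ℕ → MvPolynomial (Option (Fin m)) ℝ} {ζ ρ₁ ρ₂ : Type} {z : F.Ω → ζ}
        {Rj : F.Ω → ρ₁} {Rx : F.Ω → ρ₂} {p : F.Ω → ℝ}
        {Nf Nn Nu Nv : ℕ → ℕ → ℝ} {nb : ℕ → ℝ} {Mf Mn : ℕ → ℝ} {U e e₁ ψ Ur : ℝ},
        IsLaw p → (∀ ω, 0 < p ω → B ω) → Gd F → w ≤ W → W + X ≤ J →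
        (∀ s l, (H s l).totalDegree ≤ D) → D + 1 ≤ K → Clsd F (0 + r + 1) w B (G 0) H →
        GrdE F c 0 (0 + r) ks n q X γ U B G → U + 1 ≤ 2 ^ mm →
        MI p Rj (fun ω => (jet2 F c w H 0 (0 + r) Nf ω, pr2 F c w H (0 + r) Mf ω))
          (fun ω => ((jet2 F c w H 0 (0 + r) Nn ω, pr2 F c w H (0 + r) Mn ω),
            (z ω, yv c 0 J F ω))) ≤ e →
        MI p Rx (jet2 F c w H 0 (0 + r) Nf)
          (fun ω => (jet2 F c w H 0 (0 + r) Nn ω, (z ω, yv c 0 J F ω))) ≤ e →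
        CH p (chs F (0 + r) ks G) Rj ≤ e → CH p (chs F (0 + r) n G) Rx ≤ e → CH p z Rx ≤ e →
        Det p (slam F W) z →
        (∀ l < r, Nn l 0 * J ≤ (γ l + q : ℕ)) →
        (∀ l < r, Nn l 1 * J + W ≤ (γ l + q + (X + mm) : ℕ)) →
        (∀ l < r, Nu l 0 * J ≤ (γ l + q : ℕ)) →
        (∀ l < r, Nu l 1 * J + W ≤ (γ l + q + (X + mm) : ℕ)) →
        Mn 0 * J ≤ (γ r + q : ℕ) → Mn 1 * J + W ≤ (γ r + q : ℕ) →
        ((γ r + q + X : ℕ) : ℝ) ≤ Mf 0 * J → 0 ≤ e₁ →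
        (∀ l < r, CH p (Pool.AVG71.cod F W 2 K (2 ^ (γ l + q + (X + mm))) (c l)
          (fun s => upw w W s) (fun s => H s l)) F.W ≤ e₁) →
        (∀ l < r, ((γ l + q + (X + mm) : ℕ) : ℝ) ≤ Nf l 0 * J) →
        (∀ l < r, ((γ l + q + (X + mm) : ℕ) : ℝ) ≤ Nf l 1 * J + W) →
        (∀ l < r, ((γ l + q : ℕ) : ℝ) ≤ Nv l 0 * J) →
        (∀ l < r, ((γ l + q + (X + mm) : ℕ) : ℝ) ≤ Nv l 1 * J + W) →
        CH p (Pool.AVG57.cod F w (fun s => H s r) (c r) (γ r + q + X) 1 K)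
          (fun ω => (jet2 F c w H 0 r Nf ω, (z ω, yv c 0 J F ω))) ≤ e →
        CH p (Pool.AVG57.cod F w (fun s => H s r) (c r) (γ r + q) 0 K)
          (fun ω => (jet2 F c w H 0 r Nu ω, (Rx ω, yv c 0 J F ω))) ≤ e →
        r * (X * Real.log 2) - e ≤ CH p (Vv F c r w H fun l => nb l * J)
          (fun ω => (jet2 F c w H 0 (0 + r) Nv ω, (Rx ω, yv c 0 J F ω))) →
        (∀ l < r, ((γ l + q + X : ℕ) : ℝ) ≤ nb l * J) →
        (∀ l < r, nb l * J ≤ (γ l + q + (X + mm) : ℕ)) →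
        (∀ j : ℕ, (j + 1) * ⌊κ * X⌋₊ ≤ X → ∀ E : Set F.Ω, π₀ ≤ Pr p E →
          CH (rs p E) (Mh F c r w H (γ r + q + (j + 1) * ⌊κ * X⌋₊))
            (fun ω => (Mh F c r w H (γ r + q + j * ⌊κ * X⌋₊) ω,
              (Vv F c r w H (fun l => nb l * J) ω, (F.W ω, z ω)))) ≤ Ur) →
        TimW F p W j₀ ε₀ ψ → X₀ ≤ X → r * e₁ + Ca + ψ * J ≤ e →
        e ≤ τ * X → (mm : ℝ) ≤ τ * X → Ur ≤ (1 - 2 * cc) * (κ * X) * Real.log 2 + τ * X →
        ∃ mu : LnT F → ℕ → Polynomial ℝ, (∀ s i, (mu s i).natDegree ≤ K) ∧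
          Pb p (fun ω => ∃ i < r, (2 : ℝ) ^ (-(κ₂ * X)) <
            |gnh F c r γ (G 0) (G n) ω i - (mu (slam F W ω) i).eval (rt F W ω)|) ≤ ε := by
  obtain ⟨κ₂, κ, π₀, ι, ε₀, k₁, j₀, X₀, a1, a2, a3, a4, a5, a6, a7, Hm⟩ := v0_ev r K cc ε hcc hε
  obtain ⟨Ca, hCa, hac⟩ := Pool.V0F97.acStmt r K
  obtain ⟨τ₁, hτ₁, hτ₁', X₁, hnum⟩ := v0_nums r K hcc a3 a4 a5 a6
  have hl2 : 0 < Real.log 2 := Real.log_pos one_lt_two
  refine ⟨κ₂, κ, π₀, min τ₁ (ι * Real.log 2), ε₀, Ca, j₀, max (max X₀ X₁) K, a1, a2, a3, a4, a5,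
    lt_min hτ₁ (by positivity), a7, hCa, ?_⟩
  intro m J F c ks n q w W X mm D γ B G H ζ ρ₁ ρ₂ z Rj Rx p Nf Nn Nu Nv nb Mf Mn U e e₁ ψ Ur
    hp sup gd wW hWX deg DK cls grd mU mj mx hj hx zx zL n0 n1 u0 u1 m0 m1 mf he1 hc2
    f0 f1 v0 v1 dj jt vf nb1 nb2 row T hX he heτ hmm hUr
  have h0 := hp.nonneg
  have hW : W ≤ J := by omega
  have hr : 0 + r = r := Nat.zero_add r
  have hX0 : (0 : ℝ) ≤ X := Nat.cast_nonneg X
  have hXK : K ≤ X := (le_max_right _ _).trans hX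
  have hXX0 : X₀ ≤ X := (le_max_left _ _).trans ((le_max_left _ _).trans hX)
  have hXX1 : X₁ ≤ X := (le_max_right _ _).trans ((le_max_left _ _).trans hX)
  have hτa : min τ₁ (ι * Real.log 2) * X ≤ τ₁ * X :=
    mul_le_mul_of_nonneg_right (min_le_left _ _) hX0
  have hτb : min τ₁ (ι * Real.log 2) * X ≤ ι * Real.log 2 * X :=
    mul_le_mul_of_nonneg_right (min_le_right _ _) hX0
  have he0 : 0 ≤ e := (CH_nonneg h0 _ _).trans dj
  have hre1 : 0 ≤ r * e₁ := by positivity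
  have hψ : 0 ≤ ψ * J := by
    have h1 := T.mi (F.T1 W) (fun ω ν _ _ e => (Prod.ext_iff.mp (Prod.ext_iff.mp e).2).2)
      (fun _ _ _ _ e => e)
    refine le_trans ?_ h1
    rw [MI_eq h0]
    have := CH_mono_cond h0 (X := F.T) (W' := fun ω => (slam F W ω, F.T1 W ω)) (W := F.T1 W)
      (fun ω ν _ _ e => (Prod.ext_iff.mp e).2)
    linarith
  obtain ⟨q1, q2, q3, q4⟩ := hnum X mm e U Ur hXX1 he0 (heτ.trans hτa) (hmm.trans hτa) grd.U0
    (by linarith) (by linarith)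
  have P : PrA F c 0 r ks n q w W X mm D K γ B G H z Rj Rx (Vv F c r w H fun l => nb l * J) p Nf
      Nn Nn Nu Nv Mf Mn U (r * (X * Real.log 2)) e :=
    { law := hp
      sup := sup
      gd := gd
      wW := wW
      WJ := hW
      deg := deg
      DK := DK
      KX := by
        have h1 : (K : ℝ) ≤ 2 ^ K := by exact_mod_cast Nat.lt_two_pow_self.le
        exact h1.trans (pow_le_pow_right₀ (by norm_num) (by omega))
      adw := adM_w cls wW hW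
      grd := grd
      mU := mU
      ti := by
        have := adM_ti (c := c) (k₀ := 0) (k := r) (n := n) (q := q) (w := w) (X := X) (mm := mm)
          (γ := γ) (G := G) (H := H) hp T zL K
        linarith
      mj := mj
      mx := mx
      chj := hj
      chx := hx
      zx := zx
      n0 := fun l _ hl => n0 l (by omega)
      n1 := fun l _ hl => n1 l (by omega)
      x0 := fun l _ hl => n0 l (by omega)
      x1 := fun l _ hl => n1 l (by omega)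
      u0 := fun l _ hl => u0 l (by omega)
      u1 := fun l _ hl => u1 l (by omega)
      m0 := by
        rw [hr]
        exact m0
      m1 := by
        rw [hr]
        exact m1
      mf := by
        rw [hr]
        exact mf
      ac := by
        rw [hr]
        have := (hac (F := F) (c := c) (n := n) (q := q) (w := w) (W := W) (X := X) (mm := mm)
          (γ := γ) (G := G) (H := H) (zw := z) hp wW hW deg DK he1 hc2).1 Nf f0 f1
        linarith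
      va := by
        rw [hr]
        have := (hac (F := F) (c := c) (n := n) (q := q) (w := w) (W := W) (X := X) (mm := mm)
          (γ := γ) (G := G) (H := H) (zw := z) hp wW hW deg DK he1 hc2).2 Nv v0 v1
        linarith
      dj := by
        rw [hr]
        exact dj
      jt := by
        rw [hr]
        exact jt
      vf := vf }
  obtain ⟨mu, b1, -, b3⟩ := Hm P nb1 nb2 row T zL hXX0 hWX (by linarith) q1 q2 q3 q4
  exact ⟨mu, b1, b3⟩

end Pool.VT83
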