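import Pool.Agent.H83.VT.Ev

/-!
# The fields of the event from the law with a side path

`vs_mx`, `vs_mj`, `vs_vf`: the mutual informations of `vt_gen` from `VSd`. The context is the record
`zw`, a code `Ec` of the velocities of the base coordinates and the side digits `sd`.
-/

set_option autoImplicit false

namespace Pool.VT83

open Finset Real MvPolynomial
open Pool.Agent.H49.Ent Pool.Agent.H32.Dense
open Pool.STK hiding pr2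
open Pool.KA Pool.KSAT Pool.K2S Pool.PB Pool.S6C Pool.M5 Pool.PRM
open Pool.GEN Pool.CHT Pool.CHX Pool.ISO Pool.LA91 Pool.AVG71 Pool.AVG5 Pool.D2F2 Pool.AVG57
open Pool.KVA (MI)
open Pool.V0F

section

variable {m J : ℕ} {F : Fam m J} {c : ℕ → Fin m} {r w : ℕ}
  {H : LnT F → ℕ → MvPolynomial (Option (Fin m)) ℝ} {p : F.Ω → ℝ}
  {ζ ρ₁ ρ₂ ρ₃ ρ₄ μ₁ μ₂ σ η ξ₆ : Type} {zw : F.Ω → ζ} {Rj : F.Ω → ρ₁} {Rx : F.Ω → ρ₂}
  {Ra : F.Ω → ρ₃} {R' : F.Ω → ρ₄} {M1 : F.Ω → μ₁} {M2 : F.Ω → μ₂} {sd : F.Ω → σ} {Ec : F.Ω → η}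
  {XJ : F.Ω → ξ₆} {Fv Gf κ e₁ : ℝ} {Nn Nf Nv : ℕ → ℕ → ℝ} {Mf Mn : ℕ → ℝ}

/-- Fewer digits of the velocities. -/
theorem jv_less (hp : IsLaw p) {n n' : ℕ → ℝ} (hn : ∀ l < r, n' l ≤ n l) {𝓦 : Type} (Z : F.Ω → 𝓦)
    (hZ : Det p Z (jv F c r w H n)) : CH p (jv F c r w H n') Z ≤ r * Real.log 5 := by
  have h1 := CH_jv (d := 0) (n := n) (n' := n') hp (fun l hl => by
    have h2 : (0 : ℝ) ≤ J := Nat.cast_nonneg J
    nlinarith [hn l hl]) le_rfl Z hZ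
  rw [zero_mul, zero_add] at h1
  exact h1

/-- **The field `mx`.** -/
theorem vs_mx (hp : IsLaw p) (V : VSd p zw Rj Rx Ra R' F.W (jh F c r w H fun l => Nn l 0)
      (jh F c r w H fun l => Nf l 0) (jv F c r w H fun l => Nf l 1) (th0 F c r w H (Mn 0))
      (th0 F c r w H (Mf 0)) M1 M2 sd XJ Fv Gf κ) (hv : ∀ l < r, Nn l 1 ≤ Nf l 1)
    (hE1 : CH p Ec (fun ω => (jv F c r w H (fun l => Nf l 1) ω, F.W ω)) ≤ e₁)
    (hE2 : CH p (jv F c r w H fun l => Nf l 1) (fun ω => (Ec ω, F.W ω)) ≤ e₁) :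
    MI p Rx (jet2 F c w H 0 (0 + r) Nf)
      (fun ω => (jet2 F c w H 0 (0 + r) Nn ω, ((zw ω, (Ec ω, sd ω)), yv c 0 J F ω))) ≤
      27 * κ + 3 * e₁ + r * Real.log 5 := by
  have h0 := hp.nonneg
  obtain ⟨Up, hUp⟩ : ∃ Up, Up = jv F c r w H fun l => Nf l 1 := ⟨_, rfl⟩
  obtain ⟨C₀, hC₀⟩ : ∃ C₀ : F.Ω → _, C₀ = fun ω => (jh F c r w H (fun l => Nn l 0) ω,
    (zw ω, ((Up ω, sd ω), F.W ω))) := ⟨_, rfl⟩
  obtain ⟨C₁, hC₁⟩ : ∃ C₁ : F.Ω → _, C₁ = fun ω => (jet2 F c w H 0 (0 + r) Nn ω,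
    ((zw ω, (Ec ω, sd ω)), yv c 0 J F ω)) := ⟨_, rfl⟩
  have hmx := V.mx
  rw [← hUp] at hmx hE1 hE2
  rw [← hC₀] at hmx
  rw [← hC₁]
  have k1 : CH p C₁ C₀ ≤ e₁ + r * Real.log 5 := by
    have a1 := CH_le_add h0 C₁ (fun ω => (Ec ω, jv F c r w H (fun l => Nn l 1) ω)) C₀
    rw [CH_eq_zero h0 (X := C₁) (W := fun ω => ((Ec ω, jv F c r w H (fun l => Nn l 1) ω), C₀ ω))
      (fun ω ν hω hν e => by
        rw [hC₀] at e
        rw [hC₁]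
        simp only [Prod.mk.injEq] at e ⊢
        exact ⟨jhv_jet2 Nn ω ν hω hν (Prod.ext e.2.1 e.1.2), ⟨e.2.2.1, e.1.1, e.2.2.2.1.2⟩,
          W_yv p ω ν hω hν e.2.2.2.2⟩)] at a1
    have a2 := CH_subadd h0 Ec (jv F c r w H fun l => Nn l 1) C₀
    have a3 : CH p Ec C₀ ≤ e₁ := le_trans (CH_mono_cond h0 fun ω ν _ _ e => by
      rw [hC₀] at e
      simp only [Prod.mk.injEq] at e ⊢
      exact ⟨e.2.2.1.1, e.2.2.2⟩) hE1
    have a4 := jv_less (c := c) (w := w) (H := H) hp hv C₀ (fun ω ν _ _ e => by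
      rw [hC₀, hUp] at e
      simp only [Prod.mk.injEq] at e ⊢
      exact e.2.2.1.1)
    linarith
  have k2 : CH p C₀ C₁ ≤ e₁ := by
    have a1 := CH_le_add h0 C₀ Up C₁
    rw [CH_eq_zero h0 (X := C₀) (W := fun ω => (Up ω, C₁ ω)) (fun ω ν hω hν e => by
        rw [hC₁] at e
        rw [hC₀]
        simp only [Prod.mk.injEq] at e ⊢
        exact ⟨jet2_jh Nn ω ν hω hν e.2.1, e.2.2.1.1, ⟨e.1, e.2.2.1.2.2⟩,
          yv_W p ω ν hω hν e.2.2.2⟩)] at a1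
    have a2 : CH p Up C₁ ≤ e₁ := le_trans (CH_mono_cond h0 fun ω ν hω hν e => by
      rw [hC₁] at e
      simp only [Prod.mk.injEq] at e ⊢
      exact ⟨e.2.1.2.1, yv_W p ω ν hω hν e.2.2⟩) hE2
    linarith
  have k3 := MI_few h0 Rx (jh F c r w H fun l => Nf l 0) k2 k1
  have k3' := MI_few h0 Rx (jh F c r w H fun l => Nf l 0) k1 k2
  have k4 := MI_le_add h0 Rx (jet2 F c w H 0 (0 + r) Nf) (jh F c r w H fun l => Nf l 0) C₁
  have k5 : CH p (jet2 F c w H 0 (0 + r) Nf) (fun ω => (jh F c r w H (fun l => Nf l 0) ω, C₁ ω)) ≤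
      e₁ := by
    have a1 := CH_le_add h0 (jet2 F c w H 0 (0 + r) Nf) Up
      (fun ω => (jh F c r w H (fun l => Nf l 0) ω, C₁ ω))
    rw [CH_eq_zero h0 (X := jet2 F c w H 0 (0 + r) Nf)
      (W := fun ω => (Up ω, (jh F c r w H (fun l => Nf l 0) ω, C₁ ω))) (fun ω ν hω hν e => by
        rw [hUp] at e
        simp only [Prod.mk.injEq] at e
        exact jhv_jet2 Nf ω ν hω hν (Prod.ext e.2.1 e.1))] at a1
    have a2 : CH p Up (fun ω => (jh F c r w H (fun l => Nf l 0) ω, C₁ ω)) ≤ e₁ :=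
      le_trans (CH_mono_cond h0 fun ω ν hω hν e => by
      rw [hC₁] at e
      simp only [Prod.mk.injEq] at e ⊢
      exact ⟨e.2.2.1.2.1, yv_W p ω ν hω hν e.2.2.2⟩) hE2
    linarith
  linarith

/-- **The field `mj`.** -/
theorem vs_mj (hp : IsLaw p) (V : VSd p zw Rj Rx Ra R' F.W (jh F c r w H fun l => Nn l 0)
      (jh F c r w H fun l => Nf l 0) (jv F c r w H fun l => Nf l 1) (th0 F c r w H (Mn 0))
      (th0 F c r w H (Mf 0)) M1 M2 sd XJ Fv Gf κ) (hv : ∀ l < r, Nn l 1 ≤ Nf l 1)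
    (hE1 : CH p Ec (fun ω => (jv F c r w H (fun l => Nf l 1) ω, F.W ω)) ≤ e₁)
    (hE2 : CH p (jv F c r w H fun l => Nf l 1) (fun ω => (Ec ω, F.W ω)) ≤ e₁)
    (hM : Mf 1 = Mn 1)
    (hs : ∀ ω, 0 < p ω → |(2 : ℝ) ^ (Mn 1 * J) * ojet F (c r) 1 (H (slam F w ω) r) ω| < 1) :
    MI p Rj (fun ω => (jet2 F c w H 0 (0 + r) Nf ω, pr2 F c w H (0 + r) Mf ω))
      (fun ω => ((jet2 F c w H 0 (0 + r) Nn ω, pr2 F c w H (0 + r) Mn ω),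
        ((zw ω, (Ec ω, sd ω)), yv c 0 J F ω))) ≤
      97 * κ + 3 * e₁ + r * Real.log 5 + Real.log 2 := by
  have h0 := hp.nonneg
  have hr : 0 + r = r := Nat.zero_add r
  have hp1 : ∀ (M : ℕ → ℝ) (ω : F.Ω), pr2 F c w H (0 + r) M ω = (th0 F c r w H (M 0) ω,
      ⌊(2 : ℝ) ^ (M 1 * J) * ojet F (c r) 1 (H (slam F w ω) r) ω⌋) := by
    intro M ω
    unfold Pool.AVG57.pr2 th0
    simp only [hr]
  obtain ⟨Up, hUp⟩ : ∃ Up, Up = jv F c r w H fun l => Nf l 1 := ⟨_, rfl⟩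
  obtain ⟨sg, hsg⟩ : ∃ sg : F.Ω → ℤ, sg = fun ω => ⌊(2 : ℝ) ^ (Mn 1 * J) *
    ojet F (c r) 1 (H (slam F w ω) r) ω⌋ := ⟨_, rfl⟩
  have hpn : ∀ ω, pr2 F c w H (0 + r) Mn ω = (th0 F c r w H (Mn 0) ω, sg ω) := fun ω => by
    rw [hp1, hsg]
  have hpf : ∀ ω, pr2 F c w H (0 + r) Mf ω = (th0 F c r w H (Mf 0) ω, sg ω) := fun ω => by
    rw [hp1, hsg, hM]
  obtain ⟨C₀, hC₀⟩ : ∃ C₀ : F.Ω → _, C₀ = fun ω => ((jh F c r w H (fun l => Nn l 0) ω,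
    th0 F c r w H (Mn 0) ω), (zw ω, ((Up ω, sd ω), F.W ω))) := ⟨_, rfl⟩
  obtain ⟨C₁, hC₁⟩ : ∃ C₁ : F.Ω → _, C₁ = fun ω => ((jet2 F c w H 0 (0 + r) Nn ω,
    pr2 F c w H (0 + r) Mn ω), ((zw ω, (Ec ω, sd ω)), yv c 0 J F ω)) := ⟨_, rfl⟩
  have hmj := V.mj
  rw [← hUp] at hmj hE1 hE2
  rw [← hC₀] at hmj
  rw [← hC₁]
  have ksg : ∀ {α : Type} (Z : F.Ω → α), CH p sg Z ≤ Real.log 2 := fun Z => by
    rw [hsg]
    exact CH_sgn hp _ Z hs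
  have k1 : CH p C₁ C₀ ≤ e₁ + r * Real.log 5 + Real.log 2 := by
    have a1 := CH_le_add h0 C₁ (fun ω => ((Ec ω, jv F c r w H (fun l => Nn l 1) ω), sg ω)) C₀
    rw [CH_eq_zero h0 (X := C₁)
      (W := fun ω => (((Ec ω, jv F c r w H (fun l => Nn l 1) ω), sg ω), C₀ ω))
      (fun ω ν hω hν e => by
        rw [hC₀] at e
        rw [hC₁]
        simp only [Prod.mk.injEq, hpn] at e ⊢
        exact ⟨⟨jhv_jet2 Nn ω ν hω hν (Prod.ext e.2.1.1 e.1.1.2), e.2.1.2, e.1.2⟩,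
          ⟨e.2.2.1, e.1.1.1, e.2.2.2.1.2⟩, W_yv p ω ν hω hν e.2.2.2.2⟩)] at a1
    have a2 := CH_subadd h0 (fun ω => (Ec ω, jv F c r w H (fun l => Nn l 1) ω)) sg C₀
    have a2' := CH_subadd h0 Ec (jv F c r w H fun l => Nn l 1) C₀
    have a3 : CH p Ec C₀ ≤ e₁ := le_trans (CH_mono_cond h0 fun ω ν _ _ e => by
      rw [hC₀] at e
      simp only [Prod.mk.injEq] at e ⊢
      exact ⟨e.2.2.1.1, e.2.2.2⟩) hE1
    have a4 := jv_less (c := c) (w := w) (H := H) hp hv C₀ (fun ω ν _ _ e => by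
      rw [hC₀, hUp] at e
      simp only [Prod.mk.injEq] at e ⊢
      exact e.2.2.1.1)
    have a5 := ksg C₀
    linarith
  have k2 : CH p C₀ C₁ ≤ e₁ := by
    have a1 := CH_le_add h0 C₀ Up C₁
    rw [CH_eq_zero h0 (X := C₀) (W := fun ω => (Up ω, C₁ ω)) (fun ω ν hω hν e => by
        rw [hC₁] at e
        rw [hC₀]
        simp only [Prod.mk.injEq, hpn] at e ⊢
        exact ⟨⟨jet2_jh Nn ω ν hω hν e.2.1.1, e.2.1.2.1⟩, e.2.2.1.1, ⟨e.1, e.2.2.1.2.2⟩,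
          yv_W p ω ν hω hν e.2.2.2⟩)] at a1
    have a2 : CH p Up C₁ ≤ e₁ := le_trans (CH_mono_cond h0 fun ω ν hω hν e => by
      rw [hC₁] at e
      simp only [Prod.mk.injEq] at e ⊢
      exact ⟨e.2.1.2.1, yv_W p ω ν hω hν e.2.2⟩) hE2
    linarith
  obtain ⟨A, hA⟩ : ∃ A : F.Ω → _, A = fun ω => (jh F c r w H (fun l => Nf l 0) ω,
    th0 F c r w H (Mf 0) ω) := ⟨_, rfl⟩
  rw [← hA] at hmj
  have k3 := MI_few h0 Rj A k1 k2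
  have k4 := MI_le_add h0 Rj (fun ω => (jet2 F c w H 0 (0 + r) Nf ω, pr2 F c w H (0 + r) Mf ω))
    A C₁
  have k5 : CH p (fun ω => (jet2 F c w H 0 (0 + r) Nf ω, pr2 F c w H (0 + r) Mf ω))
      (fun ω => (A ω, C₁ ω)) ≤ e₁ := by
    have a1 := CH_le_add h0 (fun ω => (jet2 F c w H 0 (0 + r) Nf ω, pr2 F c w H (0 + r) Mf ω)) Up
      (fun ω => (A ω, C₁ ω))
    rw [CH_eq_zero h0 (X := fun ω => (jet2 F c w H 0 (0 + r) Nf ω, pr2 F c w H (0 + r) Mf ω))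
      (W := fun ω => (Up ω, (A ω, C₁ ω))) (fun ω ν hω hν e => by
        rw [hUp, hA, hC₁] at e
        simp only [Prod.mk.injEq, hpn, hpf] at e ⊢
        exact ⟨jhv_jet2 Nf ω ν hω hν (Prod.ext e.2.1.1 e.1), e.2.1.2, e.2.2.1.2.2⟩)] at a1
    have a2 : CH p Up (fun ω => (A ω, C₁ ω)) ≤ e₁ :=
      le_trans (CH_mono_cond h0 fun ω ν hω hν e => by
      rw [hC₁] at e
      simp only [Prod.mk.injEq] at e ⊢
      exact ⟨e.2.2.1.2.1, yv_W p ω ν hω hν e.2.2.2⟩) hE2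
    linarith
  linarith

/-- **The field `vf`.** -/
theorem vs_vf (hp : IsLaw p) (V : VSd p zw Rj Rx Ra R' F.W (jh F c r w H fun l => Nn l 0)
      (jh F c r w H fun l => Nf l 0) (jv F c r w H fun l => Nf l 1) (th0 F c r w H (Mn 0))
      (th0 F c r w H (Mf 0)) M1 M2 sd XJ Fv Gf κ) (hv : ∀ l < r, Nn l 1 ≤ Nf l 1)
    (hE1 : CH p Ec (fun ω => (jv F c r w H (fun l => Nf l 1) ω, F.W ω)) ≤ e₁)
    (hzx : CH p zw Rx ≤ κ)
    {δ : Type} {D : F.Ω → δ} {Fw d : ℝ} (hD : CH p D (fun ω => (R' ω, F.W ω)) ≤ κ)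
    (hf : Fw - κ ≤ CH p D (fun ω => (jh F c r w H (fun l => Nn l 0) ω, (Ra ω, F.W ω))))
    (hv1 : ∀ l, Nv l 1 = Nn l 1) (hd0 : 0 ≤ d) (hv0 : ∀ l < r, (Nv l 0 - Nn l 0) * J ≤ d) :
    Fw - 13 * κ - e₁ - r * (d * Real.log 2 + Real.log 5) - r * Real.log 5 ≤
      CH p D (fun ω => (jet2 F c w H 0 (0 + r) Nv ω,
        ((Rx ω, (zw ω, (Ec ω, sd ω))), yv c 0 J F ω))) := by
  have h0 := hp.nonneg
  obtain ⟨Up, hUp⟩ : ∃ Up, Up = jv F c r w H fun l => Nf l 1 := ⟨_, rfl⟩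
  have h1 := V.vf hD hf
  obtain ⟨C₀, hC₀⟩ : ∃ C₀ : F.Ω → _, C₀ = fun ω => (jh F c r w H (fun l => Nn l 0) ω,
    (Rx ω, ((Up ω, sd ω), F.W ω))) := ⟨_, rfl⟩
  rw [← hUp] at h1 hE1
  rw [← hC₀] at h1
  obtain ⟨Q, hQ⟩ : ∃ Q : F.Ω → _, Q = fun ω => ((jh F c r w H (fun l => Nv l 0) ω,
    jv F c r w H (fun l => Nv l 1) ω), (zw ω, Ec ω)) := ⟨_, rfl⟩
  have h2 := CH_ge h0 D Q C₀
  have h3 : CH p Q C₀ ≤ r * (d * Real.log 2 + Real.log 5) + r * Real.log 5 + (κ + e₁) := by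
    rw [hQ]
    refine (CH_subadd h0 _ _ _).trans (add_le_add ((CH_subadd h0 _ _ _).trans (add_le_add ?_ ?_))
      ((CH_subadd h0 _ _ _).trans (add_le_add ?_ ?_)))
    · exact CH_jh hp hv0 hd0 C₀ fun ω ν _ _ e => by
        rw [hC₀] at e
        simp only [Prod.mk.injEq] at e
        exact e.1
    · have e1 : (fun l : ℕ => Nv l 1) = fun l => Nn l 1 := funext hv1
      rw [e1]
      exact jv_less hp hv C₀ fun ω ν _ _ e => by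
        rw [hC₀, hUp] at e
        simp only [Prod.mk.injEq] at e ⊢
        exact e.2.2.1.1
    · exact le_trans (CH_mono_cond h0 fun ω ν _ _ e => by
        rw [hC₀] at e
        simp only [Prod.mk.injEq] at e
        exact e.2.1) hzx
    · exact le_trans (CH_mono_cond h0 fun ω ν _ _ e => by
        rw [hC₀] at e
        simp only [Prod.mk.injEq] at e ⊢
        exact ⟨e.2.2.1.1, e.2.2.2⟩) hE1
  have h4 : CH p D (fun ω => (Q ω, C₀ ω)) ≤ CH p D (fun ω => (jet2 F c w H 0 (0 + r) Nv ω,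
        ((Rx ω, (zw ω, (Ec ω, sd ω))), yv c 0 J F ω))) := by
    refine CH_mono_cond h0 fun ω ν hω hν e => ?_
    rw [hQ, hC₀] at e
    simp only [Prod.mk.injEq] at e ⊢
    exact ⟨jhv_jet2 Nv ω ν hω hν (Prod.ext e.1.1.1 e.1.1.2), ⟨e.2.2.1, e.1.2.1, e.1.2.2,
      e.2.2.2.1.2⟩, W_yv p ω ν hω hν e.2.2.2.2⟩
  linarith

end

end Pool.VT83
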