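import Pool.Agent.H64.LV.Evc
import Pool.Agent.H44.V0F.Ev4
import Pool.Agent.H57.AVG.C1a

/-!
# Closed gradient of one place, the height of a second place given

`gg2`: the gradients, zero at the second place. `grdV_two`: the gradients of `PrV` from `GrdE`, the
digits of the second place counted to the charts of the ball. `p2_mx`, `p2_mj`, `p2_vf`: the fields
of `PrV` from `VLaw2`. `vt_fin`: the closed gradient on one event.
-/

set_option autoImplicit false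

namespace Pool.VT83

open Finset Real MvPolynomial
open Pool.Agent.H49.Ent Pool.Agent.H32.Dense
open Pool.STK hiding pr2
open Pool.KA Pool.KSAT Pool.K2S Pool.PB Pool.S6C
open Pool.GEN Pool.CHT Pool.CHX Pool.ISO Pool.LA91 Pool.AVG71 Pool.AVG5 Pool.D2F2 Pool.AVG57
open Pool.PB.Trl (rt rt_mem t_rt)
open Pool.D2R (gnh hgt GrdE chs chs_eq)
open Pool.KVA (MI)
open Pool.KAF (rs Pr)
open Pool.BFL (Pb)
open Pool.FS21 (oth)
open Pool.LV64
open Pool.V0F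

variable {m J : ℕ}

/-- The gradient of the first place; the second place has gradient zero. -/
noncomputable def gg2 (F : Fam m J) (c : ℕ → Fin m) (r n : ℕ) (γ : ℕ → ℕ)
    (G : ℕ → PtT F → ℕ → MvPolynomial (Option (Fin m)) ℝ) (ω : F.Ω) (u : Fin 2) (j : Fin r) : ℝ :=
  if u = 0 then gnh F c r γ (G 0) (G n) ω j else 0

section

variable {F : Fam m J} {c : ℕ → Fin m} {r ks n q w W X mm : ℕ} {γ : ℕ → ℕ} {U : ℝ}
  {B : F.Ω → Prop} {G : ℕ → PtT F → ℕ → MvPolynomial (Option (Fin m)) ℝ}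
  {H : LnT F → ℕ → MvPolynomial (Option (Fin m)) ℝ} {tg qt Xt : Fin 2 → ℕ} {ζ : Type}
  {z : F.Ω → ζ} {p : F.Ω → ℝ}

/-- **The gradients** of `PrV`. -/
theorem grdV_two (E : GrdE F c 0 r ks n q X γ U B G) (ht : tg 0 = r) (hq : qt 0 = q)
    (hX : Xt 0 = X) (hw : w ≤ J) {N : ℝ} (hN : ((γ (tg 1) + qt 1 + Xt 1 : ℕ) : ℝ) ≤ N * J)
    (hcl : ∀ ω, B ω → G 0 (ptr F J ω) (tg 1) = H (slam F w ω) (tg 1)) :
    GrdV F c (Fin.val : Fin r → ℕ) tg qt Xt q X γ (U + 1) B (G 0) (gg2 F c r n γ G) z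
      (chs F r ks G) (fun ω => (chs F r n G ω, th0 F c (tg 1) w H N ω)) := by
  have hU := E.U0
  have hXp : (0 : ℝ) < 2 ^ X := by positivity
  have hUX : U / 2 ^ X ≤ (U + 1) / 2 ^ X := div_le_div_of_nonneg_right (by linarith) hXp.le
  have hU1 : 0 ≤ (U + 1) / 2 ^ X := by positivity
  have h10 : ¬ ((1 : Fin 2) = 0) := by decide
  have hnr : ∀ ω ν, NrH F c (Fin.val : Fin r → ℕ) q γ (G 0) ω ν → ∀ j < r, 0 ≤ j →
      |hgt F c (G 0) ω j - hgt F c (G 0) ν j| ≤ 2 ^ 2 / 2 ^ (γ j + q) :=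
    fun ω ν h j hj _ => h ⟨j, hj⟩
  refine ⟨by linarith, fun ω hω => Fin.forall_fin_two.2 ⟨fun j => ?_, fun j => ?_⟩,
    fun ω ν hω hν e1 _ e3 e4 => Fin.forall_fin_two.2 ⟨fun j => ?_, fun j => ?_⟩,
    fun ω ν hω hν e1 _ e3 e4 => Fin.forall_fin_two.2 ⟨fun j => ?_, fun j => ?_⟩,
    fun ω ν hω hν e1 _ e3 e4 => Fin.forall_fin_two.2 ⟨?_, ?_⟩⟩
  · unfold gg2
    rw [if_pos rfl]
    have := E.bm ω hω j j.2 (Nat.zero_le _)
    linarith
  · unfold gg2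
    rw [if_neg h10, abs_zero]
    linarith
  · unfold gg2
    rw [if_pos rfl, if_pos rfl]
    exact (E.bj ω ν hω hν e1 (fun l hl => absurd hl (Nat.not_lt_zero l)) (hnr ω ν e4)
      (chs_eq e3) j j.2 (Nat.zero_le _)).trans hUX
  · unfold gg2
    rw [if_neg h10, if_neg h10, sub_zero, abs_zero]
    exact hU1
  · unfold gg2
    rw [if_pos rfl, if_pos rfl]
    exact (E.bx ω ν hω hν e1 (fun l hl => absurd hl (Nat.not_lt_zero l)) (hnr ω ν e4)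
      (chs_eq (Prod.ext_iff.mp e3).1) j j.2 (Nat.zero_le _)).trans hUX
  · unfold gg2
    rw [if_neg h10, if_neg h10, sub_zero, abs_zero]
    exact hU1
  · unfold gg2
    simp only [if_true]
    have h1 := E.nx ω ν hω hν e1 (fun l hl => absurd hl (Nat.not_lt_zero l)) (hnr ω ν e4)
      (chs_eq (Prod.ext_iff.mp e3).1)
    rw [← Finset.range_eq_Ico, Finset.sum_range] at h1
    rw [ht, hq, hX]
    have h2 := mul_le_mul_of_nonneg_left h1 hXp.le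
    have h3 : (2 : ℝ) ^ X * (U / 2 ^ X) = U := by field_simp
    rw [h3] at h2
    have h4 : ∀ a b : ℝ, 2 ^ X * a - 2 ^ X * b = 2 ^ X * (a - b) := fun a b => by ring
    rw [h4, abs_mul, abs_of_pos hXp]
    linarith
  · unfold gg2
    simp only [if_neg h10, zero_mul, Finset.sum_const_zero, mul_zero, sub_zero]
    rw [hgt_ojet hw (hcl ω hω), hgt_ojet hw (hcl ν hν)]
    have p3 : (0 : ℝ) < (2 : ℝ) ^ (N * J) := Real.rpow_pos_of_pos two_pos _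
    have h1 := near_of_floor p3 (Prod.ext_iff.mp e3).2
    have p4 : (0 : ℝ) < 2 ^ (γ (tg 1) + qt 1 + Xt 1) := by positivity
    have h2 : (2 : ℝ) ^ (γ (tg 1) + qt 1 + Xt 1) ≤ 2 ^ (N * J) := by
      rw [← Real.rpow_natCast]
      exact Real.rpow_le_rpow_of_exponent_le one_le_two hN
    have h3 : (2 : ℝ) ^ (γ (tg 1) + qt 1 + Xt 1) *
        |ojet F (c (tg 1)) 0 (H (slam F w ω) (tg 1)) ω -
          ojet F (c (tg 1)) 0 (H (slam F w ν) (tg 1)) ν| ≤ 1 := by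
      rw [le_div_iff₀ p3] at h1
      calc _ ≤ 2 ^ (N * J) * |ojet F (c (tg 1)) 0 (H (slam F w ω) (tg 1)) ω -
            ojet F (c (tg 1)) 0 (H (slam F w ν) (tg 1)) ν| :=
            mul_le_mul_of_nonneg_right h2 (abs_nonneg _)
        _ ≤ 1 := by linarith
    rw [← mul_assoc, ← pow_add, show Xt 1 + (γ (tg 1) + qt 1) = γ (tg 1) + qt 1 + Xt 1 by ring,
      abs_mul, abs_of_pos p4]
    linarith

/-! ### The digits of the base -/

theorem jetm_v0 (N : ℕ → ℕ → ℝ) (ω : F.Ω) (l : Fin r) :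
    jetm F c (Fin.val : Fin r → ℕ) w H (fun j => N j) ω (l, 0) =
      ⌊(2 : ℝ) ^ (N l 0 * J) * ojet F (c l) 0 (H (slam F w ω) l) ω⌋ := by
  unfold jetm
  simp only [Fin.val_zero]

theorem jetm_v1 (N : ℕ → ℕ → ℝ) (ω : F.Ω) (l : Fin r) :
    jetm F c (Fin.val : Fin r → ℕ) w H (fun j => N j) ω (l, 1) =
      ⌊(2 : ℝ) ^ (N l 1 * J) * ojet F (c l) 1 (H (slam F w ω) l) ω⌋ := by
  unfold jetm
  simp only [Fin.val_one]

theorem jetm_jh (N : ℕ → ℕ → ℝ) :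
    Det p (jetm F c (Fin.val : Fin r → ℕ) w H fun j => N j) (jh F c r w H fun l => N l 0) := by
  intro ω ν _ _ e
  funext l j'
  by_cases h : l < r ∧ j' = 0
  · have e1 := congrFun e (⟨l, h.1⟩, 0)
    rw [jetm_v0, jetm_v0] at e1
    unfold jh
    rw [if_pos h, if_pos h]
    exact e1
  · unfold jh
    rw [if_neg h, if_neg h]

theorem jetm_jv (N : ℕ → ℕ → ℝ) :
    Det p (jetm F c (Fin.val : Fin r → ℕ) w H fun j => N j) (jv F c r w H fun l => N l 1) := by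
  intro ω ν _ _ e
  funext l
  have e1 := congrFun e (l, 1)
  rw [jetm_v1, jetm_v1] at e1
  unfold jv
  exact e1

theorem jhv_jetm (N : ℕ → ℕ → ℝ) :
    Det p (fun ω => (jh F c r w H (fun l => N l 0) ω, jv F c r w H (fun l => N l 1) ω))
      (jetm F c (Fin.val : Fin r → ℕ) w H fun j => N j) := by
  intro ω ν _ _ e
  obtain ⟨e1, e2⟩ := Prod.ext_iff.mp e
  funext i
  obtain ⟨l, a⟩ := i
  revert a
  refine Fin.forall_fin_two.2 ⟨?_, ?_⟩
  · have e3 := congrFun (congrFun e1 l) 0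
    unfold jh at e3
    dsimp only at e3
    rw [if_pos ⟨l.2, rfl⟩, if_pos ⟨l.2, rfl⟩] at e3
    rw [jetm_v0, jetm_v0]
    exact e3
  · have e3 := congrFun e2 l
    unfold jv at e3
    rw [jetm_v1, jetm_v1]
    exact e3

theorem jetm_jet2 (N : ℕ → ℕ → ℝ) :
    Det p (jetm F c (Fin.val : Fin r → ℕ) w H fun j => N j) (jet2 F c w H 0 r N) := by
  intro ω ν hω hν e
  have h := jhv_jet2 (c := c) (r := r) (p := p) N ω ν hω hν
    (Prod.ext (jetm_jh N ω ν hω hν e) (jetm_jv N ω ν hω hν e))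
  rwa [Nat.zero_add] at h

theorem jet2_jetm (N : ℕ → ℕ → ℝ) :
    Det p (jet2 F c w H 0 r N) (jetm F c (Fin.val : Fin r → ℕ) w H fun j => N j) := by
  intro ω ν hω hν e
  have e' : jet2 F c w H 0 (0 + r) N ω = jet2 F c w H 0 (0 + r) N ν := by
    rw [Nat.zero_add]
    exact e
  exact jhv_jetm N ω ν hω hν (Prod.ext (jet2_jh N ω ν hω hν e') (jet2_jv N ω ν hω hν e'))

/-! ### The fields of the law -/

variable {ρ₁ ρ₂ ρ₃ ξ₆ : Type} {zw : F.Ω → ζ} {Rj : F.Ω → ρ₁} {Rx : F.Ω → ρ₂} {R' : F.Ω → ρ₃}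
  {XJ : F.Ω → ξ₆} {Fv Gf κ e₁ : ℝ} {Nn Nf Nv : ℕ → ℕ → ℝ} {Mf Mn : Fin 2 → ℕ → ℝ}

/-- The digits of the own velocity of the place `l`. -/
noncomputable def th1 (F : Fam m J) (c : ℕ → Fin m) (l w : ℕ)
    (H : LnT F → ℕ → MvPolynomial (Option (Fin m)) ℝ) (N : ℝ) (ω : F.Ω) : ℤ :=
  ⌊(2 : ℝ) ^ (N * J) * ojet F (c l) 1 (H (slam F w ω) l) ω⌋

theorem pr2_th (l : ℕ) (M : ℕ → ℝ) (ω : F.Ω) :
    pr2 F c w H l M ω = (th0 F c l w H (M 0) ω, th1 F c l w H (M 1) ω) := by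
  unfold pr2 th0 th1
  rfl

/-- Heights and velocities of the two places. -/
theorem two_pr2 {M : Fin 2 → ℕ → ℝ} {ω ν : F.Ω}
    (e0 : (th0 F c (tg 0) w H (M 0 0) ω, th0 F c (tg 1) w H (M 1 0) ω) =
      (th0 F c (tg 0) w H (M 0 0) ν, th0 F c (tg 1) w H (M 1 0) ν))
    (e1 : (th1 F c (tg 0) w H (M 0 1) ω, th1 F c (tg 1) w H (M 1 1) ω) =
      (th1 F c (tg 0) w H (M 0 1) ν, th1 F c (tg 1) w H (M 1 1) ν)) :
    (fun u => pr2 F c w H (tg u) (M u) ω) = fun u => pr2 F c w H (tg u) (M u) ν := by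
  obtain ⟨a0, a1⟩ := Prod.ext_iff.mp e0
  obtain ⟨b0, b1⟩ := Prod.ext_iff.mp e1
  simp only at a0 a1 b0 b1
  funext u
  rw [pr2_th, pr2_th]
  revert u
  refine Fin.forall_fin_two.2 ⟨?_, ?_⟩
  · rw [a0, b0]
  · rw [a1, b1]

theorem pr2_two {M : Fin 2 → ℕ → ℝ} {ω ν : F.Ω}
    (e : (fun u => pr2 F c w H (tg u) (M u) ω) = fun u => pr2 F c w H (tg u) (M u) ν) :
    (th0 F c (tg 0) w H (M 0 0) ω, th0 F c (tg 1) w H (M 1 0) ω) =
      (th0 F c (tg 0) w H (M 0 0) ν, th0 F c (tg 1) w H (M 1 0) ν) ∧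
    (th1 F c (tg 0) w H (M 0 1) ω, th1 F c (tg 1) w H (M 1 1) ω) =
      (th1 F c (tg 0) w H (M 0 1) ν, th1 F c (tg 1) w H (M 1 1) ν) := by
  have h0 := congrFun e 0
  have h1 := congrFun e 1
  simp only [pr2_th] at h0 h1
  obtain ⟨a0, a1⟩ := Prod.ext_iff.mp h0
  obtain ⟨b0, b1⟩ := Prod.ext_iff.mp h1
  simp only at a0 a1 b0 b1
  rw [a0, a1, b0, b1]
  exact ⟨rfl, rfl⟩

/-- **The field `mj`.** -/
theorem p2_mj (hp : IsLaw p) (V : VLaw2 p zw Rj Rx R' F.W (jh F c r w H fun l => Nn l 0)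
      (jh F c r w H fun l => Nf l 0) (jv F c r w H fun l => Nn l 1)
      (jv F c r w H fun l => Nf l 1)
      (fun ω => (th0 F c (tg 0) w H (Mn 0 0) ω, th0 F c (tg 1) w H (Mn 1 0) ω))
      (fun ω => (th0 F c (tg 0) w H (Mf 0 0) ω, th0 F c (tg 1) w H (Mf 1 0) ω)) XJ Fv Gf κ)
    (hM : ∀ u, Mf u 1 = Mn u 1)
    (hs : ∀ u ω, 0 < p ω → |(2 : ℝ) ^ (Mn u 1 * J) * ojet F (c (tg u)) 1
      (H (slam F w ω) (tg u)) ω| < 1) :
    MI p Rj (fun ω => (jetm F c (Fin.val : Fin r → ℕ) w H (fun j => Nf j) ω,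
        fun u => pr2 F c w H (tg u) (Mf u) ω))
      (fun ω => ((jetm F c (Fin.val : Fin r → ℕ) w H (fun j => Nn j) ω,
        fun u => pr2 F c w H (tg u) (Mn u) ω), (zw ω, F.W ω))) ≤ 65 * κ + 2 * Real.log 2 := by
  have h0 := V.h0
  obtain ⟨T1, hT1⟩ : ∃ T1 : F.Ω → ℤ × ℤ, T1 = fun ω => (th1 F c (tg 0) w H (Mn 0 1) ω,
    th1 F c (tg 1) w H (Mn 1 1) ω) := ⟨_, rfl⟩
  obtain ⟨N1, hN1⟩ : ∃ N1 : F.Ω → ℤ × ℤ, N1 = fun ω => (th0 F c (tg 0) w H (Mn 0 0) ω,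
    th0 F c (tg 1) w H (Mn 1 0) ω) := ⟨_, rfl⟩
  obtain ⟨N2, hN2⟩ : ∃ N2 : F.Ω → ℤ × ℤ, N2 = fun ω => (th0 F c (tg 0) w H (Mf 0 0) ω,
    th0 F c (tg 1) w H (Mf 1 0) ω) := ⟨_, rfl⟩
  obtain ⟨A, hA⟩ : ∃ A : F.Ω → Fin r × Fin 2 → ℤ, A = jetm F c (Fin.val : Fin r → ℕ) w H
    fun j => Nf j := ⟨_, rfl⟩
  obtain ⟨A1, hA1⟩ : ∃ A1 : F.Ω → Fin r × Fin 2 → ℤ, A1 = jetm F c (Fin.val : Fin r → ℕ) w H
    fun j => Nn j := ⟨_, rfl⟩
  obtain ⟨P2, hP2⟩ : ∃ P2 : F.Ω → Fin 2 → ℤ × ℤ, P2 = fun ω u => pr2 F c w H (tg u) (Mf u) ω :=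
    ⟨_, rfl⟩
  obtain ⟨P1, hP1⟩ : ∃ P1 : F.Ω → Fin 2 → ℤ × ℤ, P1 = fun ω u => pr2 F c w H (tg u) (Mn u) ω :=
    ⟨_, rfl⟩
  have q2 : ∀ ω ν, N2 ω = N2 ν → T1 ω = T1 ν → P2 ω = P2 ν := by
    intro ω ν e0 e1
    rw [hN2] at e0
    rw [hT1] at e1
    rw [hP2]
    refine two_pr2 e0 ?_
    rw [hM, hM]
    exact e1
  have q1 : ∀ ω ν, N1 ω = N1 ν → T1 ω = T1 ν → P1 ω = P1 ν := by
    intro ω ν e0 e1
    rw [hN1] at e0
    rw [hT1] at e1
    rw [hP1]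
    exact two_pr2 e0 e1
  have q3 : ∀ ω ν, P1 ω = P1 ν → N1 ω = N1 ν ∧ T1 ω = T1 ν := by
    intro ω ν e
    rw [hP1] at e
    rw [hN1, hT1]
    exact pr2_two e
  have q4 : ∀ ω ν, P2 ω = P2 ν → N2 ω = N2 ν := by
    intro ω ν e
    rw [hP2] at e
    rw [hN2]
    exact (pr2_two e).1
  have jA : Det p (fun ω => (jh F c r w H (fun l => Nf l 0) ω, jv F c r w H (fun l => Nf l 1) ω))
      A := by
    rw [hA]
    exact jhv_jetm Nf
  have jA' : Det p A (fun ω => (jh F c r w H (fun l => Nf l 0) ω,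
      jv F c r w H (fun l => Nf l 1) ω)) := by
    rw [hA]
    exact fun ω ν hω hν e => Prod.ext (jetm_jh Nf ω ν hω hν e) (jetm_jv Nf ω ν hω hν e)
  have jB : Det p (fun ω => (jh F c r w H (fun l => Nn l 0) ω, jv F c r w H (fun l => Nn l 1) ω))
      A1 := by
    rw [hA1]
    exact jhv_jetm Nn
  have jB' : Det p A1 (fun ω => (jh F c r w H (fun l => Nn l 0) ω,
      jv F c r w H (fun l => Nn l 1) ω)) := by
    rw [hA1]
    exact fun ω ν hω hν e => Prod.ext (jetm_jh Nn ω ν hω hν e) (jetm_jv Nn ω ν hω hν e)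
  obtain ⟨Xf, hXf⟩ : ∃ Xf : F.Ω → _, Xf = fun ω => (jh F c r w H (fun l => Nf l 0) ω,
    jv F c r w H (fun l => Nf l 1) ω) := ⟨_, rfl⟩
  obtain ⟨Xn, hXn⟩ : ∃ Xn : F.Ω → _, Xn = fun ω => (jh F c r w H (fun l => Nn l 0) ω,
    jv F c r w H (fun l => Nn l 1) ω) := ⟨_, rfl⟩
  rw [← hXf] at jA jA'
  rw [← hXn] at jB jB'
  have h2' : MI p Rj (fun ω => (Xf ω, N2 ω)) (fun ω => ((Xn ω, N1 ω), (zw ω, F.W ω))) ≤
      65 * κ := by
    rw [hXf, hXn, hN1, hN2]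
    exact V.mj
  have hsg : CH p T1 (fun ω => ((Xn ω, N1 ω), (zw ω, F.W ω))) ≤ 2 * Real.log 2 := by
    rw [hT1]
    have a1 := CH_subadd h0 (th1 F c (tg 0) w H (Mn 0 1)) (th1 F c (tg 1) w H (Mn 1 1))
      (fun ω => ((Xn ω, N1 ω), (zw ω, F.W ω)))
    have a2 : CH p (th1 F c (tg 0) w H (Mn 0 1)) (fun ω => ((Xn ω, N1 ω), (zw ω, F.W ω))) ≤
        Real.log 2 := CH_sgn hp _ _ (hs 0)
    have a3 : CH p (th1 F c (tg 1) w H (Mn 1 1)) (fun ω => ((Xn ω, N1 ω), (zw ω, F.W ω))) ≤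
        Real.log 2 := CH_sgn hp _ _ (hs 1)
    linarith
  have h1 : MI p Rj (fun ω => (A ω, P2 ω)) (fun ω => ((A1 ω, P1 ω), (zw ω, F.W ω))) ≤
      MI p Rj (fun ω => (Xf ω, N2 ω)) (fun ω => ((Xn ω, N1 ω), (zw ω, F.W ω))) +
        2 * Real.log 2 := by
    refine mi_side h0 Rj (s := T1) ?_ ?_ ?_ ?_ hsg
    · intro ω ν hω hν e
      obtain ⟨e7, e8⟩ := Prod.ext_iff.mp e
      obtain ⟨e9, e10⟩ := Prod.ext_iff.mp e7
      have e6 := (Prod.ext_iff.mp (Prod.ext_iff.mp e8).1).2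
      exact Prod.ext (jA ω ν hω hν e9) (q2 ω ν e10 (q3 ω ν e6).2)
    · intro ω ν hω hν e
      obtain ⟨e1, e2⟩ := Prod.ext_iff.mp e
      obtain ⟨e3, e4⟩ := Prod.ext_iff.mp e1
      exact Prod.ext (Prod.ext (jB' ω ν hω hν e3) (q3 ω ν e4).1) e2
    · intro ω ν hω hν e
      obtain ⟨e1, e2⟩ := Prod.ext_iff.mp e
      obtain ⟨e3, e4⟩ := Prod.ext_iff.mp e1
      exact Prod.ext (jA' ω ν hω hν e3) (q4 ω ν e4)
    · intro ω ν hω hν e
      obtain ⟨e1, e2⟩ := Prod.ext_iff.mp e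
      obtain ⟨e3, e4⟩ := Prod.ext_iff.mp e2
      obtain ⟨e5, e6⟩ := Prod.ext_iff.mp e3
      exact Prod.ext (Prod.ext (jB ω ν hω hν e5) (q1 ω ν e6 e1)) e4
  have h3 := h1.trans (add_le_add h2' le_rfl)
  rw [hA, hA1, hP1, hP2] at h3
  exact h3

/-- **The field `mx`**, with digits `N` in the record of the ball. -/
theorem p2_mx {ν₁ ν₂ ν₃ : Type} {N1 : F.Ω → ν₁} {N2 : F.Ω → ν₂} {N : F.Ω → ν₃}
    (V : VLaw2 p zw Rj Rx R' F.W (jh F c r w H fun l => Nn l 0)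
      (jh F c r w H fun l => Nf l 0) (jv F c r w H fun l => Nn l 1)
      (jv F c r w H fun l => Nf l 1) N1 N2 XJ Fv Gf κ)
    (hN : CH p N (fun ω => (jet2 F c w H 0 r Nn ω, (Rx ω, F.W ω))) ≤ e₁) :
    MI p (fun ω => (Rx ω, N ω)) (jetm F c (Fin.val : Fin r → ℕ) w H fun j => Nf j)
      (fun ω => (jetm F c (Fin.val : Fin r → ℕ) w H (fun j => Nn j) ω, (zw ω, F.W ω))) ≤
      25 * κ + e₁ := by
  have h0 := V.h0
  have h2 := V.mx
  rw [MI_eq' h0] at h2 ⊢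
  obtain ⟨A, hA⟩ : ∃ A, A = jetm F c (Fin.val : Fin r → ℕ) w H fun j => Nf j := ⟨_, rfl⟩
  obtain ⟨W, hW⟩ : ∃ W : F.Ω → _, W = fun ω => (jetm F c (Fin.val : Fin r → ℕ) w H
    (fun j => Nn j) ω, (zw ω, F.W ω)) := ⟨_, rfl⟩
  have a1 : CH p A W ≤ CH p (fun ω => (jh F c r w H (fun l => Nf l 0) ω,
      jv F c r w H (fun l => Nf l 1) ω)) (fun ω => ((jh F c r w H (fun l => Nn l 0) ω,
      jv F c r w H (fun l => Nn l 1) ω), (zw ω, F.W ω))) := by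
    rw [hA, hW]
    refine (CH_mono_left h0 fun ω ν hω hν e => ?_).trans (CH_mono_cond h0 fun ω ν hω hν e => ?_)
    · exact jhv_jetm Nf ω ν hω hν (Prod.ext_iff.mp e).1
    · obtain ⟨e1, e2⟩ := Prod.ext_iff.mp e
      exact Prod.ext (Prod.ext (jetm_jh Nn ω ν hω hν e1) (jetm_jv Nn ω ν hω hν e1)) e2
  have a2 := CH_ge h0 A N (fun ω => (Rx ω, W ω))
  have a3 : CH p A (fun ω => (N ω, (Rx ω, W ω))) ≤ CH p A (fun ω => ((Rx ω, N ω), W ω)) :=
    CH_mono_cond h0 fun ω ν _ _ e => by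
      obtain ⟨e1, e2⟩ := Prod.ext_iff.mp e
      obtain ⟨e3, e4⟩ := Prod.ext_iff.mp e2
      exact Prod.ext (Prod.ext e3 e1) e4
  have a4 : CH p N (fun ω => (Rx ω, W ω)) ≤ e₁ := by
    refine le_trans (CH_mono_cond h0 fun ω ν hω hν e => ?_) hN
    rw [hW] at e
    obtain ⟨e1, e2⟩ := Prod.ext_iff.mp e
    obtain ⟨e3, e4⟩ := Prod.ext_iff.mp e2
    exact Prod.ext (jetm_jet2 Nn ω ν hω hν e3) (Prod.ext e1 (Prod.ext_iff.mp e4).2)
  have a5 : CH p (fun ω => (jh F c r w H (fun l => Nf l 0) ω,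
      jv F c r w H (fun l => Nf l 1) ω)) (fun ω => (Rx ω, ((jh F c r w H (fun l => Nn l 0) ω,
      jv F c r w H (fun l => Nn l 1) ω), (zw ω, F.W ω)))) ≤ CH p A (fun ω => (Rx ω, W ω)) := by
    rw [hA, hW]
    refine (CH_mono_left h0 fun ω ν hω hν e => ?_).trans (CH_mono_cond h0 fun ω ν hω hν e => ?_)
    · obtain ⟨e1, -⟩ := Prod.ext_iff.mp e
      exact Prod.ext (jetm_jh Nf ω ν hω hν e1) (jetm_jv Nf ω ν hω hν e1)
    · obtain ⟨e1, e2⟩ := Prod.ext_iff.mp e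
      obtain ⟨e3, e4⟩ := Prod.ext_iff.mp e2
      obtain ⟨e5, e6⟩ := Prod.ext_iff.mp e3
      exact Prod.ext e1 (Prod.ext (jhv_jetm Nn ω ν hω hν (Prod.ext e5 e6)) e4)
  have a6 : CH p A W - CH p A (fun ω => ((Rx ω, N ω), W ω)) ≤ 25 * κ + e₁ := by linarith
  rw [hA, hW] at a6
  exact a6

/-- **The field `vf`**, with digits `N` in the record of the ball. -/
theorem p2_vf (hp : IsLaw p) {ν₁ ν₂ ν₃ : Type} {N1 : F.Ω → ν₁} {N2 : F.Ω → ν₂} {N : F.Ω → ν₃}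
    (V : VLaw2 p zw Rj Rx R' F.W (jh F c r w H fun l => Nn l 0)
      (jh F c r w H fun l => Nf l 0) (jv F c r w H fun l => Nn l 1)
      (jv F c r w H fun l => Nf l 1) N1 N2 XJ Fv Gf κ)
    {δ : Type} {D : F.Ω → δ} {Fw d : ℝ} (hD : CH p D (fun ω => (R' ω, F.W ω)) ≤ κ)
    (hf : Fw - κ ≤ CH p D (fun ω => (jh F c r w H (fun l => Nn l 0) ω, (Rx ω, F.W ω))))
    (hv1 : ∀ l, Nv l 1 = Nn l 1) (hd0 : 0 ≤ d) (hv0 : ∀ l < r, (Nv l 0 - Nn l 0) * J ≤ d)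
    (hv2 : ∀ l < r, Nn l 0 * J ≤ Nv l 0 * J)
    (hN : CH p N (fun ω => (jet2 F c w H 0 r Nn ω, (Rx ω, F.W ω))) ≤ e₁) :
    Fw - 10 * κ - r * (d * Real.log 2 + Real.log 5) - r * Real.log 5 - e₁ ≤
      CH p D (fun ω => (jetm F c (Fin.val : Fin r → ℕ) w H (fun j => Nv j) ω,
        ((Rx ω, N ω), F.W ω))) := by
  have h0 := V.h0
  have h1 := V.vf hD hf
  have h2 := CH_ge h0 D (jh F c r w H fun l => Nv l 0)
    (fun ω => ((jh F c r w H (fun l => Nn l 0) ω, jv F c r w H (fun l => Nn l 1) ω),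
      (Rx ω, F.W ω)))
  have h3 := CH_jh hp hv0 hd0 (fun ω => ((jh F c r w H (fun l => Nn l 0) ω,
    jv F c r w H (fun l => Nn l 1) ω), (Rx ω, F.W ω))) (fun ω ν _ _ e =>
      (Prod.ext_iff.mp (Prod.ext_iff.mp e).1).1)
  have e1 : (fun l : ℕ => Nv l 1) = fun l => Nn l 1 := funext hv1
  obtain ⟨Z, hZ⟩ : ∃ Z : F.Ω → _, Z = fun ω => (jetm F c (Fin.val : Fin r → ℕ) w H
    (fun j => Nv j) ω, (Rx ω, F.W ω)) := ⟨_, rfl⟩
  have hj : jv F c r w H (fun l => Nv l 1) = jv F c r w H fun l => Nn l 1 := by rw [e1]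
  have h4 : CH p D (fun ω => (jh F c r w H (fun l => Nv l 0) ω,
      ((jh F c r w H (fun l => Nn l 0) ω, jv F c r w H (fun l => Nn l 1) ω),
        (Rx ω, F.W ω)))) ≤ CH p D Z := by
    rw [hZ]
    refine CH_mono_cond h0 fun ω ν hω hν e => ?_
    obtain ⟨b1, b2⟩ := Prod.ext_iff.mp e
    obtain ⟨b3, b4⟩ := Prod.ext_iff.mp b2
    refine Prod.ext (jhv_jetm Nv ω ν hω hν (Prod.ext b1 ?_)) b4
    dsimp only
    rw [hj]
    exact (Prod.ext_iff.mp b3).2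
  have h5 : CH p (jetm F c (Fin.val : Fin r → ℕ) w H fun j => Nn j) Z ≤ r * Real.log 5 := by
    have s1 := CH_le_add h0 (jetm F c (Fin.val : Fin r → ℕ) w H fun j => Nn j)
      (jh F c r w H fun l => Nn l 0) Z
    have s2 : CH p (jetm F c (Fin.val : Fin r → ℕ) w H fun j => Nn j)
        (fun ω => (jh F c r w H (fun l => Nn l 0) ω, Z ω)) = 0 :=
      CH_eq_zero h0 fun ω ν hω hν e => by
        obtain ⟨b1, b2⟩ := Prod.ext_iff.mp e
        refine jhv_jetm Nn ω ν hω hν (Prod.ext b1 ?_)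
        dsimp only
        rw [← hj]
        rw [hZ] at b2
        exact jetm_jv Nv ω ν hω hν (Prod.ext_iff.mp b2).1
    have s3 := CH_jh (d := 0) (n := fun l => Nv l 0) (n' := fun l => Nn l 0) hp (fun l hl => by
      have := hv2 l hl
      linarith) le_rfl Z (fun ω ν hω hν e => by
        rw [hZ] at e
        exact jetm_jh Nv ω ν hω hν (Prod.ext_iff.mp e).1)
    rw [zero_mul, zero_add] at s3
    linarith
  have h6 : CH p N Z ≤ r * Real.log 5 + e₁ := by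
    have s1 := CH_le_add h0 N (jetm F c (Fin.val : Fin r → ℕ) w H fun j => Nn j) Z
    have s2 : CH p N (fun ω => (jetm F c (Fin.val : Fin r → ℕ) w H (fun j => Nn j) ω, Z ω)) ≤
        e₁ := by
      refine le_trans (CH_mono_cond h0 fun ω ν hω hν e => ?_) hN
      rw [hZ] at e
      obtain ⟨b1, b2⟩ := Prod.ext_iff.mp e
      exact Prod.ext (jetm_jet2 Nn ω ν hω hν b1) (Prod.ext_iff.mp b2).2
    linarith
  have h7 := CH_ge h0 D N Z
  have h8 : CH p D (fun ω => (N ω, Z ω)) ≤ CH p D (fun ω =>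
      (jetm F c (Fin.val : Fin r → ℕ) w H (fun j => Nv j) ω, ((Rx ω, N ω), F.W ω))) := by
    refine CH_mono_cond h0 fun ω ν _ _ e => ?_
    rw [hZ] at e
    obtain ⟨b1, b2⟩ := Prod.ext_iff.mp e
    obtain ⟨b3, b4⟩ := Prod.ext_iff.mp b2
    obtain ⟨b5, b6⟩ := Prod.ext_iff.mp b4
    exact Prod.ext b3 (Prod.ext (Prod.ext b5 b1) b6)
  linarith

/-! ### The codes of the base -/

theorem adV_acM {gg : F.Ω → Fin 2 → Fin r → ℝ} {ζ' : Type} {z' : F.Ω → ζ'} {K : ℕ} :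
    (adV F c (Fin.val : Fin r → ℕ) tg qt Xt q w W X mm γ gg H z').ac K =
      (adM F c 0 r n q w W X mm γ G H zw).ac K := by
  funext ω j a
  show ⌊(2 : ℝ) ^ (X + mm) * (Polynomial.C (2 ^ (γ j + q)) *
      dv W (fun s (_ : Fin m) => H (upw w W s) j) (c j) (slam F W ω)).coeff a⌋ =
    ⌊(2 : ℝ) ^ (X + mm) * (Polynomial.C (2 ^ (γ (0 + j) + q)) *
      dv W (fun s (_ : Fin m) => H (upw w W s) (0 + j)) (c (0 + j)) (slam F W ω)).coeff a⌋
  rw [Nat.zero_add]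

theorem adV_vM {gg : F.Ω → Fin 2 → Fin r → ℝ} {ζ' : Type} {z' : F.Ω → ζ'} {K : ℕ} :
    (fun ω => ((adV F c (Fin.val : Fin r → ℕ) tg qt Xt q w W X mm γ gg H z').v K ω).2) =
      fun ω => ((adM F c 0 r n q w W X mm γ G H zw).v K ω).2 := by
  have h := adV_acM (c := c) (tg := tg) (qt := qt) (Xt := Xt) (q := q) (w := w) (W := W) (X := X)
    (mm := mm) (n := n) (γ := γ) (G := G) (H := H) (zw := zw) (gg := gg) (z' := z') (K := K)
  funext ω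
  have h1 := congrFun h ω
  show (fun j (a : Fin K) => (adV F c (Fin.val : Fin r → ℕ) tg qt Xt q w W X mm γ gg H z').ac K ω
      j a.succ, fun j => (adV F c (Fin.val : Fin r → ℕ) tg qt Xt q w W X mm γ gg H z').ac K ω j 0 /
        2 ^ (X + mm)) =
    (fun j (a : Fin K) => (adM F c 0 r n q w W X mm γ G H zw).ac K ω j a.succ,
      fun j => (adM F c 0 r n q w W X mm γ G H zw).ac K ω j 0 / 2 ^ (X + mm))
  rw [h1]

/-! ### The numbers -/

/-- **The numerical conditions.** -/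
theorem vt_nums (r K : ℕ) {ι : ℝ} (hι : 0 < ι) : ∃ τ : ℝ, 0 < τ ∧ τ ≤ ι ∧ ∃ X₁ : ℕ,
    ∀ (X mm : ℕ) (e U : ℝ), X₁ ≤ X → 0 ≤ e → e ≤ τ * X → (mm : ℝ) ≤ τ * X → 0 ≤ U →
      U ≤ 2 ^ mm → (mm : ℝ) ≤ ι * X ∧ Evn 2 r K U e ≤ ι * X := by
  obtain ⟨B, hB0, hB⟩ := cE0_le r K
  have hcV := cV_nonneg K
  have hr0 : (0 : ℝ) ≤ r := Nat.cast_nonneg r
  obtain ⟨T, hT⟩ : ∃ T : ℝ, T = 12 + 3 * (r + 1) := ⟨_, rfl⟩
  have hT0 : 0 < T := by rw [hT]; positivity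
  have hT1 : 1 ≤ T := by rw [hT]; linarith
  obtain ⟨X₁, hX₁⟩ := exists_nat_ge ((3 * B + r * cV K) / (ι / 2))
  refine ⟨ι / (2 * T), by positivity, ?_, X₁, ?_⟩
  · rw [div_le_iff₀ (by positivity)]
    nlinarith
  intro X mm e U hX he0 he hmm hU0 hU
  obtain ⟨b1, -⟩ := hB U mm hU0 hU
  have hX0 : (0 : ℝ) ≤ X := Nat.cast_nonneg X
  have hXR : (X₁ : ℝ) ≤ X := by exact_mod_cast hX
  have h1 : 3 * B + r * cV K ≤ ι / 2 * X := by
    have := hX₁.trans hXR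
    rw [div_le_iff₀ (by positivity)] at this
    linarith
  obtain ⟨y, hy⟩ : ∃ y, y = ι / (2 * T) * X := ⟨_, rfl⟩
  rw [← hy] at he hmm
  have hTy : T * y = ι / 2 * X := by
    rw [hy]
    field_simp
  have hy0 : 0 ≤ y := by rw [hy]; positivity
  have hyT : y ≤ T * y := le_mul_of_one_le_left hy0 hT1
  have hιX : 0 ≤ ι / 2 * X := by positivity
  refine ⟨by linarith, ?_⟩
  unfold Evn
  have h2 : ((r : ℝ) + 1) * mm ≤ (r + 1) * y := mul_le_mul_of_nonneg_left hmm (by positivity)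
  have h3 : T * y = 12 * y + 3 * ((r + 1) * y) := by rw [hT]; ring
  push_cast
  linarith

end

/-- **Closed gradient of one place, the height of a second place given**, on one event. -/
theorem vt_fin (r K : ℕ) (hK : 1 ≤ K) {h x₀ ε : ℝ} (hh : 0 < h) (hh1 : h ≤ 1) (hx : 0 < x₀)
    (hxh : x₀ < h) (hε : 0 < ε) :
    ∃ (τ π₀ Ca : ℝ) (X₀ : ℕ), 0 < τ ∧ 0 < π₀ ∧ 0 ≤ Ca ∧
      ∀ {m J : ℕ} {F : Fam m J} {c : ℕ → Fin m} {ks n q w W X mm D : ℕ} {γ : ℕ → ℕ}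
        {tg qt Xt : Fin 2 → ℕ} {B : F.Ω → Prop}
        {G : ℕ → PtT F → ℕ → MvPolynomial (Option (Fin m)) ℝ}
        {H : LnT F → ℕ → MvPolynomial (Option (Fin m)) ℝ} {ζ ρ₁ ρ₂ ρ₃ ξ₆ : Type} {zw : F.Ω → ζ}
        {Rj : F.Ω → ρ₁} {Rx : F.Ω → ρ₂} {R' : F.Ω → ρ₃} {XJ : F.Ω → ξ₆} {p : F.Ω → ℝ}
        {Nf Nn Nu Nv : ℕ → ℕ → ℝ} {nb : ℕ → ℝ} {Mf Mn : Fin 2 → ℕ → ℝ}
        {U Fv Gf κ' e e₁ d ψ Ur ε₀ : ℝ} {j₀ : ℕ},
        IsLaw p → (∀ ω, 0 < p ω → B ω) → w ≤ W → W + X ≤ J →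
        (∀ s l, (H s l).totalDegree ≤ D) → D + 1 ≤ K → tg 0 = r → qt 0 = q → Xt 0 = X →
        (∀ u, Xt u ≤ X) → Clsd F (r + 1) w B (G 0) H →
        (∀ ω, B ω → G 0 (ptr F J ω) (tg 1) = H (slam F w ω) (tg 1)) →
        GrdE F c 0 r ks n q X γ U B G → U + 2 ≤ 2 ^ mm →
        VLaw2 p zw Rj Rx R' F.W (jh F c r w H fun l => Nn l 0)
          (jh F c r w H fun l => Nf l 0) (jv F c r w H fun l => Nn l 1)
          (jv F c r w H fun l => Nf l 1)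
          (fun ω => (th0 F c (tg 0) w H (Mn 0 0) ω, th0 F c (tg 1) w H (Mn 1 0) ω))
          (fun ω => (th0 F c (tg 0) w H (Mf 0 0) ω, th0 F c (tg 1) w H (Mf 1 0) ω)) XJ Fv Gf
          κ' →
        Det p Rj (chs F r ks G) → Det p Rx (chs F r n G) →
        Det p (slam F W) zw →
        (∀ l < r, Nn l 0 * J ≤ (γ l + q : ℕ)) →
        (∀ l < r, Nn l 1 * J + W ≤ (γ l + q + (X + mm) : ℕ)) →
        (∀ l < r, Nu l 0 * J ≤ (γ l + q : ℕ)) →
        (∀ l < r, Nu l 1 * J + W ≤ (γ l + q + (X + mm) : ℕ)) →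
        (∀ u, Mn u 0 * J ≤ (γ (tg u) + qt u : ℕ)) →
        (∀ u, Mn u 1 * J + W ≤ (γ (tg u) + qt u : ℕ)) →
        (∀ u, ((γ (tg u) + qt u + Xt u : ℕ) : ℝ) ≤ Mf u 0 * J) → (∀ u, Mf u 1 = Mn u 1) →
        (∀ u ω, 0 < p ω → |(2 : ℝ) ^ (Mn u 1 * J) * ojet F (c (tg u)) 1
          (H (slam F w ω) (tg u)) ω| < 1) →
        (∀ l < r, CH p (Pool.AVG71.cod F W 2 K (2 ^ (γ l + q + (X + mm))) (c l)
          (fun s => upw w W s) (fun s => H s l)) F.W ≤ e₁) →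
        (∀ l < r, ((γ l + q + (X + mm) : ℕ) : ℝ) ≤ Nf l 0 * J) →
        (∀ l < r, ((γ l + q + (X + mm) : ℕ) : ℝ) ≤ Nf l 1 * J + W) →
        (∀ l < r, ((γ l + q : ℕ) : ℝ) ≤ Nv l 0 * J) →
        (∀ l < r, ((γ l + q + (X + mm) : ℕ) : ℝ) ≤ Nv l 1 * J + W) →
        (∀ l, Nv l 1 = Nn l 1) → 0 ≤ d → (∀ l < r, (Nv l 0 - Nn l 0) * J ≤ d) →
        (∀ u, CH p (Pool.AVG57.cod F w (fun s => H s (tg u)) (c (tg u))
          (γ (tg u) + qt u + Xt u) 1 K)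
          (fun ω => (jet2 F c w H 0 r Nf ω, (zw ω, F.W ω))) ≤ e₁) →
        (∀ u, CH p (Pool.AVG57.cod F w (fun s => H s (tg u)) (c (tg u)) (γ (tg u) + qt u) 0 K)
          (fun ω => (jet2 F c w H 0 r Nu ω, (Rx ω, F.W ω))) ≤ e₁) →
        CH p (th0 F c (tg 1) w H (Mf 1 0)) (fun ω => (jet2 F c w H 0 r Nn ω,
          (Rx ω, F.W ω))) ≤ e₁ →
        CH p (Vv F c r w H fun l => nb l * J) (fun ω => (R' ω, F.W ω)) ≤ κ' →
        r * (X * Real.log 2) - κ' ≤ CH p (Vv F c r w H fun l => nb l * J)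
          (fun ω => (jh F c r w H (fun l => Nn l 0) ω, (Rx ω, F.W ω))) →
        (∀ l < r, ((γ l + q + X : ℕ) : ℝ) ≤ nb l * J) →
        (∀ l < r, nb l * J ≤ (γ l + q + (X + mm) : ℕ)) →
        (∀ E : Set F.Ω, π₀ ≤ Pr p E → CH (rs p E) (Mh F c r w H (γ r + q + X))
          (fun ω => (Mh F c r w H (γ r + q) ω,
            (Mh F c (tg 1) w H (γ (tg 1) + qt 1 + Xt 1) ω,
              (Vv F c r w H (fun l => nb l * J) ω, (F.W ω, zw ω))))) ≤ Ur) →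
        TimW F p W j₀ ε₀ ψ → X₀ ≤ X → ψ * J ≤ τ * X →
        65 * κ' + 2 * Real.log 2 + r * (d * Real.log 2 + 2 * Real.log 5) + (r + 2) * e₁ + Ca +
          ψ * J ≤ e →
        e ≤ τ * X → (mm : ℝ) ≤ τ * X → Ur ≤ (1 - h) * X * Real.log 2 + τ * X →
        ∃ mu : LnT F → Fin r → Polynomial ℝ, (∀ s i, (mu s i).natDegree ≤ K) ∧
          Pb p (fun ω => ∃ i : Fin r, (2 : ℝ) ^ (-(x₀ * X)) <
            |gnh F c r γ (G 0) (G n) ω i - (mu (slam F W ω) i).eval (rt F W ω)|) ≤ ε := by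
  obtain ⟨ι, π₀, hι, hπ₀, X0, Hm⟩ := pv_clo 2 r K hK hh hh1 hx hxh (σ := 1) one_pos hε
  obtain ⟨Ca, hCa, hac⟩ := Pool.V0F97.acStmt r K
  obtain ⟨τ, hτ, hτι, X₁, hnum⟩ := vt_nums r K hι
  have hl2 : 0 < Real.log 2 := Real.log_pos one_lt_two
  have hl5 : 0 < Real.log 5 := Real.log_pos (by norm_num)
  refine ⟨τ, π₀, Ca, max (max X0 X₁) K, hτ, hπ₀, hCa, ?_⟩
  intro m J F c ks n q w W X mm D γ tg qt Xt B G H ζ ρ₁ ρ₂ ρ₃ ξ₆ zw Rj Rx R' XJ p Nf Nn Nu Nv nb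
    Mf Mn U Fv Gf κ' e e₁ d ψ Ur ε₀ j₀ hp sup hwW hWX deg DK ht hq hXt hXX cls cl1 grd mU V hj hx'
    zL n0 n1 u0 u1 m0 m1 mf hM hs hc2 f0 f1 v0 v1 hv1 hd0 hv0 dj jt hN hD hf nb1 nb2 row T hX hψ
    he heτ hmm hUr
  have h0 := hp.nonneg
  have hW : W ≤ J := by omega
  have hw : w ≤ J := hwW.trans hW
  have hX0 : (0 : ℝ) ≤ X := Nat.cast_nonneg X
  have hXK : K ≤ X := (le_max_right _ _).trans hX
  have hXX0 : X0 ≤ X := (le_max_left _ _).trans ((le_max_left _ _).trans hX)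
  have hXX1 : X₁ ≤ X := (le_max_right _ _).trans ((le_max_left _ _).trans hX)
  have hτX : τ * X ≤ ι * X := mul_le_mul_of_nonneg_right hτι hX0
  have hκ0 := V.κ0
  have he1 : 0 ≤ e₁ := (CH_nonneg h0 _ _).trans hN
  have hre1 : 0 ≤ r * e₁ := by positivity
  have hr5 : 0 ≤ r * Real.log 5 := by positivity
  have hrd : 0 ≤ r * (d * Real.log 2) := by positivity
  have hrdd : r * (d * Real.log 2 + 2 * Real.log 5) = r * (d * Real.log 2) +
      2 * (r * Real.log 5) := by ring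
  rw [hrdd] at he
  have hψ0 : 0 ≤ ψ * J := by
    have h1 := T.mi (F.T1 W) (fun ω ν _ _ e => (Prod.ext_iff.mp (Prod.ext_iff.mp e).2).2)
      (fun _ _ _ _ e => e)
    refine le_trans ?_ h1
    rw [MI_eq h0]
    have := CH_mono_cond h0 (X := F.T) (W' := fun ω => (slam F W ω, F.T1 W ω)) (W := F.T1 W)
      (fun ω ν _ _ e => (Prod.ext_iff.mp e).2)
    linarith
  have he0 : 0 ≤ e := by linarith
  obtain ⟨z, hz⟩ : ∃ z : F.Ω → ζ × (F.ζ × ℕ), z = fun ω => (zw ω, (slam F W ω).2) := ⟨_, rfl⟩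
  have hzd : Det p (slam F W) z := by
    rw [hz]
    exact fun ω ν hω hν e => Prod.ext (zL ω ν hω hν e) (Prod.ext_iff.mp e).2
  have hzT : Det p z (F.T1 W) := by
    rw [hz]
    exact fun ω ν _ _ e => (Prod.ext_iff.mp (Prod.ext_iff.mp e).2).2
  have hzr : Det p (fun ω => (rt F W ω, z ω)) (fun ω => (zw ω, F.W ω)) := by
    rw [hz]
    intro ω ν _ _ e
    obtain ⟨a1, a2⟩ := Prod.ext_iff.mp e
    obtain ⟨a3, a4⟩ := Prod.ext_iff.mp a2
    exact Prod.ext a3 (adM_T hW a1 a4)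
  have hrz : Det p (fun ω => (zw ω, F.W ω)) (fun ω => (rt F W ω, z ω)) := by
    rw [hz]
    intro ω ν _ _ e
    obtain ⟨a1, a2⟩ := Prod.ext_iff.mp e
    obtain ⟨a3, a4⟩ := Prod.ext_iff.mp a2
    refine Prod.ext ?_ (Prod.ext a1 (Prod.ext a4 ?_))
    · show rt F W ω = rt F W ν
      have b3 : F.T ω = F.T ν := a3
      unfold rt
      rw [b3]
    · show F.T1 W ω = F.T1 W ν
      have b3 : F.T ω = F.T ν := a3
      unfold Fam.T1
      rw [b3]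
  have hac' := hac (F := F) (c := c) (n := n) (q := q) (w := w) (W := W) (X := X) (mm := mm)
    (γ := γ) (G := G) (H := H) (zw := zw) hp hwW hW deg DK he1 hc2
  obtain ⟨q1, q2⟩ := hnum X mm e (U + 1) hXX1 he0 heτ hmm (by linarith [grd.U0]) (by linarith)
  have P : PrV F c (Fin.val : Fin r → ℕ) tg qt Xt q w W X mm D K γ B (G 0) H
      (gg2 F c r n γ G) z zw F.W (chs F r ks G)
      (fun ω => (chs F r n G ω, th0 F c (tg 1) w H (Mf 1 0) ω)) Rj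
      (fun ω => (Rx ω, th0 F c (tg 1) w H (Mf 1 0) ω))
      (Vm F c (Fin.val : Fin r → ℕ) w H fun l => nb l * J) p (fun j => Nf j) (fun j => Nn j)
      (fun j => Nn j) (fun j => Nu j) (fun j => Nv j) Mf Mn (U + 1) (r * (X * Real.log 2)) e :=
    { law := hp
      sup := sup
      wW := hwW
      WJ := hW
      deg := deg
      DK := DK
      KX := by
        have h1 : (K : ℝ) ≤ 2 ^ K := by exact_mod_cast Nat.lt_two_pow_self.le
        exact h1.trans (pow_le_pow_right₀ (by norm_num) (by omega))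
      Xtm := hXX
      cls := fun ω hω => ⟨Fin.forall_fin_two.2 ⟨by
          rw [ht]
          exact cls ω hω r (Nat.lt_succ_self r), cl1 ω hω⟩, fun j => cls ω hω j (by
          have := j.2
          omega)⟩
      grd := grdV_two grd ht hq hXt hw (mf 1) cl1
      mU := by linarith
      zT := hzT
      czy := by
        rw [CH_eq_zero h0 hrz]
        exact he0
      cyz := by
        rw [CH_eq_zero h0 hzr]
        exact he0
      ti := by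
        have := adV_ti (c := c) (mv := (Fin.val : Fin r → ℕ)) (tg := tg) (qt := qt) (Xt := Xt)
          (q := q) (w := w) (X := X) (mm := mm) (γ := γ) (gg := gg2 F c r n γ G) (H := H) hp T
          hzd hzT K
        linarith
      mj := by
        have := p2_mj hp V hM hs
        linarith
      mx := by
        have := p2_mx V hN
        linarith
      chj := by
        rw [CH_eq_zero h0 hj]
        exact he0
      chx := by
        refine (le_of_eq (CH_eq_zero h0 fun ω ν hω hν e => ?_)).trans he0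
        obtain ⟨a1, a2⟩ := Prod.ext_iff.mp e
        exact Prod.ext (hx' ω ν hω hν a1) a2
      zx := by
        have h1 := CH_mono_cond h0 (X := zw) (W' := fun ω => (Rx ω,
          th0 F c (tg 1) w H (Mf 1 0) ω)) (W := Rx) fun _ _ _ _ e => (Prod.ext_iff.mp e).1
        have := V.zx
        linarith
      n0 := fun l => n0 l l.2
      n1 := fun l => n1 l l.2
      x0 := fun l => n0 l l.2
      x1 := fun l => n1 l l.2
      u0 := fun l => u0 l l.2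
      u1 := fun l => u1 l l.2
      m0 := m0
      m1 := m1
      mf := mf
      ac := by
        rw [adV_acM (n := n) (G := G) (zw := zw)]
        have h1 := hac'.1 Nf f0 f1
        refine le_trans (CH_mono_cond h0 fun ω ν hω hν e => ?_) (h1.trans (by linarith))
        obtain ⟨a1, a2⟩ := Prod.ext_iff.mp e
        obtain ⟨a3, a4⟩ := Prod.ext_iff.mp a2
        rw [hz] at a4
        obtain ⟨a5, a6⟩ := Prod.ext_iff.mp a4
        exact Prod.ext (jetm_jet2 Nf ω ν hω hν a1) (Prod.ext a3 (Prod.ext a5 (Prod.ext a6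
          (funext fun l => l.elim0))))
      va := by
        rw [adV_vM (n := n) (G := G) (zw := zw)]
        have h1 := hac'.2 Nv v0 v1
        refine le_trans (CH_mono_cond h0 fun ω ν hω hν e => ?_) (h1.trans (by linarith))
        obtain ⟨a1, a2⟩ := Prod.ext_iff.mp e
        obtain ⟨a3, a4⟩ := Prod.ext_iff.mp a2
        rw [hz] at a4
        obtain ⟨a5, a6⟩ := Prod.ext_iff.mp a4
        exact Prod.ext (jetm_jet2 Nv ω ν hω hν a1) (Prod.ext a3 (Prod.ext a5 (Prod.ext a6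
          (funext fun l => l.elim0))))
      dj := fun u => by
        refine le_trans (CH_mono_cond h0 fun ω ν hω hν e => ?_) ((dj u).trans (by linarith))
        exact Prod.ext (jetm_jet2 Nf ω ν hω hν (Prod.ext_iff.mp e).1) (Prod.ext_iff.mp e).2
      jt := fun u => by
        refine le_trans (CH_mono_cond h0 fun ω ν hω hν e => ?_) ((jt u).trans (by linarith))
        obtain ⟨a1, a2⟩ := Prod.ext_iff.mp e
        obtain ⟨a3, a4⟩ := Prod.ext_iff.mp a2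
        exact Prod.ext (jetm_jet2 Nu ω ν hω hν a1) (Prod.ext (Prod.ext_iff.mp a3).1 a4)
      vf := by
        have := p2_vf (Nv := Nv) hp V hD hf hv1 hd0 hv0 (fun l hl => (n0 l hl).trans (v0 l hl)) hN
        have e5 : r * (d * Real.log 2 + Real.log 5) = r * (d * Real.log 2) +
          r * Real.log 5 := by ring
        rw [e5] at this
        have e6 : Vm F c (Fin.val : Fin r → ℕ) w H (fun l => nb l * J) =
          Vv F c r w H fun l => nb l * J := rfl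
        rw [e6]
        linarith }
  have hrow : ∀ E : Set F.Ω, π₀ ≤ Pr p E → CH (rs p E)
      (Mh F c (tg 0) w H (γ (tg 0) + qt 0 + X))
      (fun ω => ((Mh F c (tg 0) w H (γ (tg 0) + qt 0) ω,
        oth 0 (Mm F c tg w H (fun u => γ (tg u) + qt u + Xt u) ω)),
        (Vm F c (Fin.val : Fin r → ℕ) w H (fun l => nb l * J) ω, (rt F W ω, z ω)))) ≤ Ur := by
    intro E hE
    have hpos : 0 < Pr p E := lt_of_lt_of_le hπ₀ hE
    have hE' : IsLaw (rs p E) :=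
      ⟨cond_nonneg h0 (fun ω => ω ∈ E) True, sum_cond p (fun ω => ω ∈ E) hpos.ne'⟩
    rw [ht, hq]
    refine le_trans (CH_mono_cond hE'.nonneg fun ω ν _ _ e => ?_) (row E hE)
    obtain ⟨a1, a2⟩ := Prod.ext_iff.mp e
    obtain ⟨a3, a4⟩ := Prod.ext_iff.mp a1
    obtain ⟨a5, a6⟩ := Prod.ext_iff.mp a2
    obtain ⟨a7, a8⟩ := Prod.ext_iff.mp a6
    have a9 := congrFun a4 1
    have h10 : ¬ ((1 : Fin 2) = 0) := by decide
    simp only [oth, h10, if_false] at a9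
    rw [hz] at a8
    obtain ⟨a10, a11⟩ := Prod.ext_iff.mp a8
    exact Prod.ext a3 (Prod.ext a9 (Prod.ext a5 (Prod.ext (adM_T hW a7 a11) a10)))
  obtain ⟨mu, b1, -, b3⟩ := Hm P 0 (Ur := Ur) (ψ := ψ) (ε₀ := ε₀) (j₀ := j₀)
    (fun l => nb1 l l.2) (fun l => nb2 l l.2) hXt (fun ω _ u hu j => by
      unfold gg2
      rw [if_neg hu]) hrow T hzd hXX0 hWX (by linarith) q1 q2 (by linarith)
  refine ⟨mu, b1, ?_⟩
  have e1 : ∀ ω j, gg2 F c r n γ G ω 0 j = gnh F c r γ (G 0) (G n) ω j := fun ω j => by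
    unfold gg2
    rw [if_pos rfl]
  simp only [e1] at b3
  exact b3


end Pool.VT83
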