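import Pool.Agent.H44.V0F.Vcl

/-!
# The mutual informations of the near digits of a pair, class level

`NlpI`: no look-ahead for a pair of coordinates over the exact positions of the base, at given
windows; `NlpAt`: in the box of a window. `vlaw_pair`: `VLaw2` for the pair `(c r, c' r)` of two
ladders over the same base, on all large events.
-/

set_option autoImplicit false

namespace Pool.VT83

open Finset Real MvPolynomial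
open Pool.Agent.H49.Ent Pool.Agent.H32.Dense Pool.STK Pool.KA Pool.KSAT Pool.K2S Pool.PB Pool.GEN
open Pool.S6C Pool.RCD Pool.LA91 Pool.V0F
open Pool.UNJ (ceI)
open Pool.GRD (LbP)

variable {m : ℕ}

/-- **No look-ahead for a pair** over the exact positions of `I`, between the windows `w` and `v`. -/
def NlpI (S : PCl m) (I : Finset (Fin m)) (k₁ k₂ : Fin m) (w v Λ₁ Λ₁' Λ₂ Λ₂' κ : ℝ) : Prop :=
  ∃ κ₁ : ℝ, 0 < κ₁ ∧ Bas S (fun J F A => ∀ (V : Type) (z : F.Ω → V) (V' : Type) (z' : F.Ω → V'),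
    Mx (fun J F => ptr F J) (vg w) κ₁ F A z → Mx (fun J F => ptr F J) (vg v) κ₁ F A z' →
    CH (Pool.Agent.H49.Ent.cond F.p A True)
        (fun ω => (F.X ⌊Λ₁' * J⌋₊ ω k₁, F.X ⌊Λ₂' * J⌋₊ ω k₂))
        (fun ω => ((F.X ⌊Λ₁ * J⌋₊ ω k₁, F.X ⌊Λ₂ * J⌋₊ ω k₂),
          (z ω, (ceI I (fun _ => J) (F.x ω), F.W ω)))) ≤
      CH (Pool.Agent.H49.Ent.cond F.p A True)
        (fun ω => (F.X ⌊Λ₁' * J⌋₊ ω k₁, F.X ⌊Λ₂' * J⌋₊ ω k₂))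
        (fun ω => (z' ω, (ceI I (fun _ => J) (F.x ω), F.W ω))) + κ * J)

/-- **No look-ahead for a pair** at all windows in the box of radius `ρ` around `x`. -/
def NlpAt (S : PCl m) (I : Finset (Fin m)) (k₁ k₂ : Fin m) (Λ₁ Λ₂ : ℝ → ℝ) (x ρ e : ℝ) : Prop :=
  ∀ w v o : ℚ, x - ρ ≤ w → w ≤ v → v ≤ o → (o : ℝ) ≤ x + ρ →
    NlpI S I k₁ k₂ w v (Λ₁ v) (Λ₁ o) (Λ₂ v) (Λ₂ o) (e * ρ)

theorem NlpI.sub {S S' : PCl m} {I : Finset (Fin m)} {k₁ k₂ : Fin m} {w v Λ₁ Λ₁' Λ₂ Λ₂' κ : ℝ}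
    (hs : ∀ (τ : ℝ) (J : ℕ) (F : Fam m J) (A : F.Ω → Prop), S'.St τ J F A → S.St τ J F A)
    (h : NlpI S I k₁ k₂ w v Λ₁ Λ₁' Λ₂ Λ₂' κ) : NlpI S' I k₁ k₂ w v Λ₁ Λ₁' Λ₂ Λ₂' κ := by
  obtain ⟨κ₁, h1, H⟩ := h
  exact ⟨κ₁, h1, H.sub hs⟩

theorem NlpAt.sub {S S' : PCl m} {I : Finset (Fin m)} {k₁ k₂ : Fin m} {Λ₁ Λ₂ : ℝ → ℝ} {x ρ e : ℝ}
    (hs : ∀ (τ : ℝ) (J : ℕ) (F : Fam m J) (A : F.Ω → Prop), S'.St τ J F A → S.St τ J F A)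
    (h : NlpAt S I k₁ k₂ Λ₁ Λ₂ x ρ e) : NlpAt S' I k₁ k₂ Λ₁ Λ₂ x ρ e :=
  fun w v o a b c d => (h w v o a b c d).sub hs

/-- The quantities of the base depend on the base only. -/
theorem qJets_congr {c c' : ℕ → Fin m} {r j : ℕ} (tc : ∀ l < r, c' l = c l) {w p N : ℕ → ℕ → ℝ}
    {K : ℕ} {e : ℝ} {J : ℕ} {F : Fam m J} {A : F.Ω → Prop} {u : F.Ω → ℕ → ℕ → ℤ}
    (h : (qJets m c 0 r j w p N).P K e J F A u) : (qJets m c' 0 r j w p N).P K e J F A u := by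
  obtain ⟨h1, h2⟩ := h
  refine ⟨fun i a b j' d => ?_, h2⟩
  have e1 : (range i).image c' = (range i).image c := by
    ext k
    simp only [mem_image, mem_range]
    exact ⟨fun ⟨l, a', e⟩ => ⟨l, a', by rw [← tc l (a'.trans b)]; exact e⟩,
      fun ⟨l, a', e⟩ => ⟨l, a', by rw [tc l (a'.trans b)]; exact e⟩⟩
  rw [e1, tc i b]
  exact h1 i a b j' d

theorem min_many11 {a₁ a₂ a₃ a₄ a₅ a₆ a₇ a₈ a₉ a₁₀ a₁₁ : ℝ} (h₁ : 0 < a₁) (h₂ : 0 < a₂)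
    (h₃ : 0 < a₃) (h₄ : 0 < a₄) (h₅ : 0 < a₅) (h₆ : 0 < a₆) (h₇ : 0 < a₇) (h₈ : 0 < a₈)
    (h₉ : 0 < a₉) (h₁₀ : 0 < a₁₀) (h₁₁ : 0 < a₁₁) : ∃ k : ℝ, 0 < k ∧ k ≤ a₁ ∧ k ≤ a₂ ∧ k ≤ a₃ ∧
      k ≤ a₄ ∧ k ≤ a₅ ∧ k ≤ a₆ ∧ k ≤ a₇ ∧ k ≤ a₈ ∧ k ≤ a₉ ∧ k ≤ a₁₀ ∧ k ≤ a₁₁ := by
  refine ⟨min a₁ (min a₂ (min a₃ (min a₄ (min a₅ (min a₆ (min a₇ (min a₈ (min a₉
    (min a₁₀ a₁₁))))))))), by positivity, ?_, ?_, ?_, ?_, ?_, ?_, ?_, ?_, ?_, ?_, ?_⟩ <;>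
  simp only [min_le_iff, le_refl, true_or, or_true]

theorem min_many14 {a₁ a₂ a₃ a₄ a₅ a₆ a₇ a₈ a₉ a₁₀ a₁₁ a₁₂ a₁₃ a₁₄ : ℝ} (h₁ : 0 < a₁)
    (h₂ : 0 < a₂) (h₃ : 0 < a₃) (h₄ : 0 < a₄) (h₅ : 0 < a₅) (h₆ : 0 < a₆) (h₇ : 0 < a₇)
    (h₈ : 0 < a₈) (h₉ : 0 < a₉) (h₁₀ : 0 < a₁₀) (h₁₁ : 0 < a₁₁) (h₁₂ : 0 < a₁₂) (h₁₃ : 0 < a₁₃)
    (h₁₄ : 0 < a₁₄) : ∃ k : ℝ, 0 < k ∧ k ≤ a₁ ∧ k ≤ a₂ ∧ k ≤ a₃ ∧
      k ≤ a₄ ∧ k ≤ a₅ ∧ k ≤ a₆ ∧ k ≤ a₇ ∧ k ≤ a₈ ∧ k ≤ a₉ ∧ k ≤ a₁₀ ∧ k ≤ a₁₁ ∧ k ≤ a₁₂ ∧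
      k ≤ a₁₃ ∧ k ≤ a₁₄ := by
  refine ⟨min a₁ (min a₂ (min a₃ (min a₄ (min a₅ (min a₆ (min a₇ (min a₈ (min a₉
    (min a₁₀ (min a₁₁ (min a₁₂ (min a₁₃ a₁₄)))))))))))), by positivity, ?_, ?_, ?_, ?_, ?_, ?_,
    ?_, ?_, ?_, ?_, ?_, ?_, ?_, ?_⟩ <;>
  simp only [min_le_iff, le_refl, true_or, or_true]

/-- **The mutual informations of the near digits of a pair**, on all large events. -/
theorem vlaw_pair {S : PCl m} {c c' : ℕ → Fin m} {r : ℕ} {sn sn' : ℕ → ℝ → ℝ} {G : Set ℝ}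
    {b o φ : ℝ} (L : Lad S c r sn G b o φ) (L' : Lad S c' r sn' G b o φ)
    (tc : ∀ l < r, c' l = c l) {p nn nf : ℕ → ℝ}
    {w w₁ j v x x₀ x₀' x' pr Mn Λv Mf pr' Mn' Λv' Mf' Δ Δ' Δn : ℝ}
    (N : VN r sn G b o φ p nn nf w w₁ j v x x₀ x' pr Mn Λv Mf Δ Δ')
    (N' : VN r sn' G b o φ p nn nf w w₁ j v x x₀' x' pr' Mn' Λv' Mf' Δ Δn) {rk E rk' E' : ℝ}
    (hrk : rk < 1) (hE : 0 ≤ E) (hatt : AttG S ((range r).image c) (c r) w (sn r w) rk E)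
    (hEf : Mf + E ≤ 1) (hrk' : rk' < 1) (hE' : 0 ≤ E')
    (hatt' : AttG S ((range r).image c') (c' r) w (sn' r w) rk' E') (hEf' : Mf' + E' ≤ 1)
    {sp : ℕ → ℝ → ℝ} {P : Fin r → ℝ} {κf κn : ℝ} (hfr : FrI S c r sp b P w₁ x' κf)
    (hnl : NlpI S ((range r).image c) (c r) (c' r) w₁ v Λv Mf Λv' Mf' κn) (hκf : 0 ≤ κf)
    (hκn : 0 ≤ κn) (ε : ℝ) (hε : 0 < ε) :
    ∃ k : ℝ, 0 < k ∧ ∃ e₀ : ℝ, 0 < e₀ ∧ ∀ K : ℕ, Bas S (fun J F A =>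
      ∀ (V₁ : Type) (zw : F.Ω → V₁) (V₂ : Type) (Rj : F.Ω → V₂) (V₃ : Type) (Rx : F.Ω → V₃)
        (V₄ : Type) (R' : F.Ω → V₄), Mx (fun J F => ptr F J) (vg w₁) k F A zw →
      Mx (fun J F => ptr F J) (vg j) k F A Rj → Mx (fun J F => ptr F J) (vg x) k F A Rx →
      Mx (fun J F => ptr F J) (vg x') k F A R' → ∀ Xq Xp Up N1 N2 M1 M2,
      (qJets m c 0 r 0 (fun _ _ => b) (fun l _ => p l) (fun l _ => nn l)).P K e₀ J F A Xq →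
      (qJets m c 0 r 0 (fun _ _ => b) (fun l _ => p l) (fun l _ => nf l)).P K e₀ J F A Xp →
      (qG m c r sp b P).P K e₀ J F A Up →
      (qJet m ((range r).image c) (c r) 0 w pr Mn).P K e₀ J F A N1 →
      (qJet m ((range r).image c) (c r) 0 w pr Mf).P K e₀ J F A N2 →
      (qJet m ((range r).image c') (c' r) 0 w pr' Mn').P K e₀ J F A M1 →
      (qJet m ((range r).image c') (c' r) 0 w pr' Mf').P K e₀ J F A M2 →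
      ∀ (δ : Type) (Uq : F.Ω → δ) (κ : ℝ),
      (r * Δ + Δ' + Δn + 20 * (r : ℝ) ^ 2 * φ + κf + κn + ε) * J ≤ κ →
      CH (Pool.Agent.H49.Ent.cond F.p A True) Uq Up ≤ κ →
      CH (Pool.Agent.H49.Ent.cond F.p A True) Xp (fun ω => (Xq ω, (zw ω, F.W ω))) ≤
        (∑ i ∈ range r, (nf i - nn i)) * Real.log 2 * J + κ →
      CH (Pool.Agent.H49.Ent.cond F.p A True) Xq (fun ω => (Xp ω, (zw ω, F.W ω))) ≤ κ →
      VLaw2 (Pool.Agent.H49.Ent.cond F.p A True) zw Rj Rx R' F.W Xq Xp Uq Up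
        (fun ω => (N1 ω, M1 ω)) (fun ω => (N2 ω, M2 ω))
        (fun ω => fun l : Fin r => F.X J ω (c l)) ((∑ i ∈ range r, (nf i - nn i)) * Real.log 2 * J)
        ((∑ i ∈ range r, (1 - nf i)) * Real.log 2 * J) κ) := by
  have hφ := L.φ0
  have hr0 : (0 : ℝ) ≤ r := Nat.cast_nonneg r
  have hrφ : 0 ≤ (r : ℝ) * φ := by positivity
  have hl2 : 0 < Real.log 2 := Real.log_pos one_lt_two
  have hl2' : Real.log 2 ≤ 1 := by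
    have := Real.log_two_lt_d9
    linarith
  have hx1 : x' ≤ 1 := by nlinarith [N.x1]
  have hj1 : j ≤ 1 := N.jx.trans hx1
  have hxx1 : x ≤ 1 := N.xx.trans hx1
  have hbj : b ≤ j := N.bw.trans (N.ww.trans N.wj)
  have hbx : b ≤ x := N.bw.trans (N.ww.trans N.wx)
  have hbx' : b ≤ x' := hbx.trans N.xx
  have hjo : j ≤ o := N.jx.trans N.xo
  have hxo : x ≤ o := N.xx.trans N.xo
  have hwo : w ≤ o := N.ww.trans (N.wj.trans hjo)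
  have hf : ∀ (J : ℕ) (F : Fam m J), ∃ χ : PtT F → PtT F, ∀ ω, ptr F J ω = χ (ptr F J ω) :=
    fun J F => ⟨fun x => x, fun _ => rfl⟩
  have himg : (range r).image c' = (range r).image c := by
    ext k
    simp only [mem_image, mem_range]
    exact ⟨fun ⟨l, a, e⟩ => ⟨l, a, by rw [← tc l a]; exact e⟩,
      fun ⟨l, a, e⟩ => ⟨l, a, by rw [tc l a]; exact e⟩⟩
  obtain ⟨η, hη⟩ : ∃ η : ℝ, η = ε / 32 := ⟨_, rfl⟩
  have hη0 : 0 < η := by rw [hη]; positivity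
  -- the levels at `b`
  have hb0 : ∀ i < r, sn i b ≤ nf i := by
    intro i hi
    have e1 := abs_le.1 (lad_fl L N.xG' hbx' N.xo i hi b L.bG le_rfl hbx')
    have e2 := N.nf0 i hi
    have e3 : b + 60 * φ ≤ x' := by
      have := N.x0x
      have := N.wx0
      have := N.bw
      nlinarith
    linarith [e1.2]
  -- the classes
  have c1 := t_nup L (f := fun J F => ptr F J) (y := fun _ F => F.W) hf kn_W (w := w) (j := j)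
    (oj := j) (pr := pr) (N := Mn) (p := p) (n := nn) N.wG N.jG N.bw (N.ww.trans N.wj) hjo le_rfl
    hj1 N.hp N.hpr N.st N.nj N.mj N.mw
  have c2 := t_nu0 L (f := fun J F => ptr F J) (y := fun _ F => F.W) hf kn_W (w := w) (x := x₀)
    (x' := x') (ox := x') (pr := pr) (N := Mf) N.wG N.x0G N.xG' N.bw N.wx0 N.x0x N.xo le_rfl hx1
    N.x1 N.hpr N.f0 N.f1
  have c1' := t_nup L' (f := fun J F => ptr F J) (y := fun _ F => F.W) hf kn_W (w := w) (j := j)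
    (oj := j) (pr := pr') (N := Mn') (p := p) (n := nn) N'.wG N'.jG N'.bw (N'.ww.trans N'.wj) hjo
    le_rfl hj1 N'.hp N'.hpr N'.st N'.nj N'.mj N'.mw
  have c2' := t_nu0 L' (f := fun J F => ptr F J) (y := fun _ F => F.W) hf kn_W (w := w) (x := x₀')
    (x' := x') (ox := x') (pr := pr') (N := Mf') N'.wG N'.x0G N'.xG' N'.bw N'.wx0 N'.x0x N'.xo
    le_rfl hx1 N'.x1 N'.hpr N'.f0 N'.f1
  have c3 := fup L N.jG hbj hjo N.hp (q := nn) (n := nf) (fun i hi => ⟨by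
    have := N.nj i hi
    linarith, N.nnf i hi, N.nf1 i hi⟩) N.tp η hη0
  have c4 := fup L N.xG hbx hxo N.hp (q := nn) (n := nf) (fun i hi => ⟨N.nx i hi, N.nnf i hi,
    N.nf1 i hi⟩) N.tp η hη0
  have c5 := fux L L.bG le_rfl (hbx'.trans N.xo) N.hp (n := nf) (fun i hi => ⟨hb0 i hi,
    N.nf1 i hi⟩) N.tp η hη0
  have c6 := fux L N.xG' hbx' N.xo N.hp (n := nf) (fun i hi => ⟨N.nf0 i hi, N.nf1 i hi⟩) N.tp η
    hη0
  have hx' : x' - w ≤ 1 - w := by linarith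
  have c7 := exj L le_rfl N.wG (pr := pr) (N := Mn) hrk hE hatt N.hpr N.m0
    (by linarith [N.mv, N.vf]) (by
      have := N.f1
      have := N.mv
      have := N.vf
      nlinarith) (fun l hl => by
      have := N.t1 l hl
      have := N.mv
      have := N.vf
      linarith) η hη0
  have c8 := exj L le_rfl N.wG (pr := pr) (N := Mf) hrk hE hatt N.hpr
    (N.m0.trans (N.mv.trans N.vf)) hEf (by
      have := N.f1
      nlinarith) N.t1 η hη0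
  have c7' := exj L' le_rfl N'.wG (pr := pr') (N := Mn') hrk' hE' hatt' N'.hpr N'.m0
    (by linarith [N'.mv, N'.vf]) (by
      have := N'.f1
      have := N'.mv
      have := N'.vf
      nlinarith) (fun l hl => by
      have := N'.t1 l hl
      have := N'.mv
      have := N'.vf
      linarith) η hη0
  have c8' := exj L' le_rfl N'.wG (pr := pr') (N := Mf') hrk' hE' hatt' N'.hpr
    (N'.m0.trans (N'.mv.trans N'.vf)) hEf' (by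
      have := N'.f1
      nlinarith) N'.t1 η hη0
  have c9 := lad_fewC_heights (f := fun J F => ptr F J) (y := fun _ F => F.W) L hf kn_W N.xG' hbx'
    N.xo le_rfl hx1 N.hp N.nf0
  obtain ⟨e1, he1, H1⟩ := c1.mx L.pos η hη0
  obtain ⟨e2, he2, H2⟩ := c2.mx L.pos η hη0
  obtain ⟨e1', he1', H1'⟩ := c1'.mx L.pos η hη0
  obtain ⟨e2', he2', H2'⟩ := c2'.mx L.pos η hη0
  obtain ⟨k3, hk3, e3, he3, H3⟩ := c3
  obtain ⟨k4, hk4, e4, he4, H4⟩ := c4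
  obtain ⟨k5, hk5, e5, he5, H5⟩ := c5
  obtain ⟨k6, hk6, e6, he6, H6⟩ := c6
  obtain ⟨k7, hk7, e7, he7, H7⟩ := c7
  obtain ⟨k8, hk8, e8, he8, H8⟩ := c8
  obtain ⟨k7', hk7', e7', he7', H7'⟩ := c7'
  obtain ⟨k8', hk8', e8', he8', H8'⟩ := c8'
  obtain ⟨e9, he9, H9⟩ := c9.mx L.pos η hη0
  obtain ⟨k10, hk10, e10, he10, H10⟩ := hfr
  obtain ⟨k11, hk11, H11⟩ := hnl
  obtain ⟨k, hk, l3, l4, l5, l6, l7, l8, l10, l11, lη, l7', l8'⟩ : ∃ k : ℝ, 0 < k ∧ k ≤ k3 ∧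
      k ≤ k4 ∧ k ≤ k5 ∧ k ≤ k6 ∧ k ≤ k7 ∧ k ≤ k8 ∧ k ≤ k10 ∧ k ≤ k11 ∧ k ≤ η / 2 ∧ k ≤ k7' ∧
      k ≤ k8' :=
    min_many11 hk3 hk4 hk5 hk6 hk7 hk8 hk10 hk11 (half_pos hη0) hk7' hk8'
  obtain ⟨e₀, he₀, f1, f2, f3, f4, f5, f6, f7, f8, f9, f10, f1', f2', f7', f8'⟩ : ∃ e₀ : ℝ,
      0 < e₀ ∧ e₀ ≤ e1 ∧ e₀ ≤ e2 ∧ e₀ ≤ e3 ∧ e₀ ≤ e4 ∧ e₀ ≤ e5 ∧ e₀ ≤ e6 ∧ e₀ ≤ e7 ∧ e₀ ≤ e8 ∧
      e₀ ≤ e9 ∧ e₀ ≤ e10 ∧ e₀ ≤ e1' ∧ e₀ ≤ e2' ∧ e₀ ≤ e7' ∧ e₀ ≤ e8' :=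
    min_many14 he1 he2 he3 he4 he5 he6 he7 he8 he9 he10 he1' he2' he7' he8'
  obtain ⟨J₁, hJ₁⟩ := exists_nat_gt (1 / η)
  refine ⟨k, hk, e₀, he₀, fun K => ?_⟩
  refine Bas.mono J₁ (((((H1 K).and (H2 K)).and ((H3 K).and (H4 K))).and
    ((((H5 K).and (H6 K)).and ((H7 K).and (H8 K))).and (((H9 K).and (H10 K)).and
      (H11.and (pos_bas L.pos))))).and (((H1' K).and (H2' K)).and ((H7' K).and (H8' K)))) ?_
  rintro J hJ F A ⟨⟨⟨⟨H1, H2⟩, H3, H4⟩, ⟨⟨H5, H6⟩, H7, H8⟩, ⟨H9, H10⟩, H11, hA⟩, ⟨H1', H2'⟩, H7',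
    H8'⟩ V₁ zw V₂ Rj V₃ Rx V₄ R' hzw hRj hRx hR' Xq Xp Up N1 N2 M1 M2 hXq hXp hUp hN1 hN2 hM1 hM2
    δ Uq κ hκ huq hcn hqp
  have hcl := isLaw_cond F.isLaw hA
  have h0 := hcl.nonneg
  have hJ0 : (0 : ℝ) ≤ J := Nat.cast_nonneg J
  have hηJ : 1 ≤ η * J := by
    have h1 : 1 / η < J := hJ₁.trans_le (by exact_mod_cast hJ)
    rw [div_lt_iff₀ hη0] at h1
    linarith
  have hηJ0 : 0 ≤ η * J := by linarith
  have hkJ : k * J ≤ η / 2 * J := mul_le_mul_of_nonneg_right lη hJ0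
  have hkJ0 : 0 ≤ k * J := by positivity
  have hΔ0 : 0 ≤ r * Δ := by
    rcases Nat.eq_zero_or_pos r with h | h
    · rw [h]
      simp
    · have h1 := N.nf0 0 h
      have h2 := N.nfΔ 0 h
      have : 0 ≤ Δ := by linarith
      positivity
  have hΔ' : 0 ≤ Δ' := by linarith [N.mv, N.vΔ]
  have hΔn : 0 ≤ Δn := by linarith [N'.mv, N'.vΔ]
  have hrΔJ : 0 ≤ r * Δ * J := mul_nonneg hΔ0 hJ0
  have hΔJ : 0 ≤ Δ' * J := mul_nonneg hΔ' hJ0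
  have hΔnJ : 0 ≤ Δn * J := mul_nonneg hΔn hJ0
  have hφJ : 0 ≤ 20 * (r : ℝ) ^ 2 * φ * J := by positivity
  have hκfJ : 0 ≤ κf * J := by positivity
  have hκnJ : 0 ≤ κn * J := by positivity
  have hκe : (r * Δ + Δ' + Δn + 20 * (r : ℝ) ^ 2 * φ + κf + κn + ε) * J = r * Δ * J + Δ' * J +
      Δn * J + 20 * (r : ℝ) ^ 2 * φ * J + κf * J + κn * J + 32 * (η * J) := by
    rw [hη]
    ring
  rw [hκe] at hκ
  -- the canonical records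
  have zb : Mx (fun J F => ptr F J) (vg b) k F A (cR F A b) := mx_cR hA b hk.le
  have zc : Mx (fun J F => ptr F J) (vg w) k F A (cR F A w) := mx_cR hA w hk.le
  have zv : Mx (fun J F => ptr F J) (vg v) k F A (cR F A v) := mx_cR hA v hk.le
  have hw₁1 : w₁ ≤ 1 := N.wj.trans hj1
  have d1 : CH (Pool.Agent.H49.Ent.cond F.p A True) zw Rj ≤ k * J :=
    mx_before hRj N.wj hj1 hzw.1
  have d2 : CH (Pool.Agent.H49.Ent.cond F.p A True) zw Rx ≤ k * J :=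
    mx_before hRx N.wx hxx1 hzw.1
  have d3 : CH (Pool.Agent.H49.Ent.cond F.p A True) Rj R' ≤ k * J :=
    mx_before hR' N.jx hx1 hRj.1
  have d4 : CH (Pool.Agent.H49.Ent.cond F.p A True) Rx R' ≤ k * J :=
    mx_before hR' N.xx hx1 hRx.1
  have d5 : CH (Pool.Agent.H49.Ent.cond F.p A True) (cR F A b) zw ≤ k * J :=
    mx_before hzw (N.bw.trans N.ww) hw₁1 zb.1
  have d6 : CH (Pool.Agent.H49.Ent.cond F.p A True) (cR F A w) zw ≤ k * J :=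
    mx_before hzw N.ww hw₁1 zc.1
  have d7 : CH (Pool.Agent.H49.Ent.cond F.p A True) (cR F A w) Rj ≤ k * J :=
    mx_before hRj (N.ww.trans N.wj) hj1 zc.1
  have d8 : CH (Pool.Agent.H49.Ent.cond F.p A True) Rj (cR F A v) ≤ k * J :=
    mx_before zv N.jv N.v1 hRj.1
  -- the entropies
  have a1 := H1 V₂ Rj (hRj.le' lη) Xq N1 ((qJets m c 0 r 0 _ _ _).mono le_rfl f1 hXq)
    ((qJet m _ _ _ _ _ _).mono le_rfl f1 hN1)
  have a2 := H2 V₄ R' (hR'.le' lη) N2 ((qJet m _ _ _ _ _ _).mono le_rfl f2 hN2)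
  have a1' := H1' V₂ Rj (hRj.le' lη) Xq M1 (qJets_congr tc
    ((qJets m c 0 r 0 _ _ _).mono le_rfl f1' hXq)) ((qJet m _ _ _ _ _ _).mono le_rfl f1' hM1)
  have a2' := H2' V₄ R' (hR'.le' lη) M2 ((qJet m _ _ _ _ _ _).mono le_rfl f2' hM2)
  have a3 := H3 V₂ Rj (hRj.le' l3) Xp Xq ((qJets m c 0 r 0 _ _ _).mono le_rfl f3 hXp)
    ((qJets m c 0 r 0 _ _ _).mono le_rfl f3 hXq)
  have a4 := H4 V₃ Rx (hRx.le' l4) Xp Xq ((qJets m c 0 r 0 _ _ _).mono le_rfl f4 hXp)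
    ((qJets m c 0 r 0 _ _ _).mono le_rfl f4 hXq)
  obtain ⟨-, a5, a5'⟩ := H5 _ (cR F A b) (zb.le' l5) Xp
    ((qJets m c 0 r 0 _ _ _).mono le_rfl f5 hXp)
  have a5 := a5 _ (cR F A b) (zb.le' l5)
  have a5' := a5' _ (cR F A b) (zb.le' l5)
  have a6 := (H6 V₄ R' (hR'.le' l6) Xp ((qJets m c 0 r 0 _ _ _).mono le_rfl f6 hXp)).1
  have a7 := H7 _ (cR F A w) (zc.le' l7) N1 ((qJet m _ _ _ _ _ _).mono le_rfl f7 hN1)
  have a8 := H8 _ (cR F A w) (zc.le' l8) N2 ((qJet m _ _ _ _ _ _).mono le_rfl f8 hN2)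
  have a7' := H7' _ (cR F A w) (zc.le' l7') M1 ((qJet m _ _ _ _ _ _).mono le_rfl f7' hM1)
  have a8' := H8' _ (cR F A w) (zc.le' l8') M2 ((qJet m _ _ _ _ _ _).mono le_rfl f8' hM2)
  rw [himg] at a7' a8'
  have a9 := H9 V₄ R' (hR'.le' lη) (fun _ => ()) Xp (fun ω _ => rfl)
    ((qJets m c 0 r 0 _ _ _).mono le_rfl f9 hXp)
  have a10 := H10 V₁ zw V₄ R' (hzw.le' l10) (hR'.le' l10) Up
    ((qG m c r sp b P).mono le_rfl f10 hUp)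
  have a11 := H11 V₁ zw _ (cR F A v) (hzw.le' l11) (zv.le' l11)
  obtain ⟨XJ, hXJ⟩ : ∃ XJ : F.Ω → Fin r → ℤ, XJ = fun ω => fun l : Fin r => F.X J ω (c l) :=
    ⟨_, rfl⟩
  obtain ⟨Fv, hFv⟩ : ∃ Fv, Fv = (∑ i ∈ range r, (nf i - nn i)) * Real.log 2 * J := ⟨_, rfl⟩
  obtain ⟨Gf, hGf⟩ : ∃ Gf, Gf = (∑ i ∈ range r, (1 - nf i)) * Real.log 2 * J := ⟨_, rfl⟩
  have hls : 20 * (r : ℝ) ^ 2 * φ * Real.log 2 * J ≤ 20 * (r : ℝ) ^ 2 * φ * J := by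
    have : 20 * (r : ℝ) ^ 2 * φ * J * Real.log 2 ≤ 20 * (r : ℝ) ^ 2 * φ * J * 1 :=
      mul_le_mul_of_nonneg_left hl2' hφJ
    linarith
  have hF1 : ((∑ i ∈ range r, (nf i - nn i)) - 20 * (r : ℝ) ^ 2 * φ) * Real.log 2 * J - η * J =
      Fv - 20 * (r : ℝ) ^ 2 * φ * Real.log 2 * J - η * J := by
    rw [hFv]
    ring
  have hG1 : ((∑ i ∈ range r, (1 - nf i)) - 20 * (r : ℝ) ^ 2 * φ) * Real.log 2 * J - η * J =
      Gf - 20 * (r : ℝ) ^ 2 * φ * Real.log 2 * J - η * J := by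
    rw [hGf]
    ring
  rw [hF1] at a3 a4
  rw [hG1] at a6
  rw [← hGf] at a5
  have a5 : CH (Pool.Agent.H49.Ent.cond F.p A True) XJ
      (fun ω => (Xp ω, (cR F A b ω, F.W ω))) ≤ Gf + η * J := by
    rw [hXJ]
    exact a5
  have a5' : CH (Pool.Agent.H49.Ent.cond F.p A True) Xp
      (fun ω => (XJ ω, (cR F A b ω, F.W ω))) ≤ η * J := by
    rw [hXJ]
    exact a5'
  have a6 : Gf - 20 * (r : ℝ) ^ 2 * φ * Real.log 2 * J - η * J ≤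
      CH (Pool.Agent.H49.Ent.cond F.p A True) XJ (fun ω => (Xp ω, (R' ω, F.W ω))) := by
    rw [hXJ]
    exact a6
  rw [← hFv] at hcn ⊢
  rw [← hGf, ← hXJ]
  -- `px`
  have hpx : (∑ i ∈ range r, (nf i - sn i x' + 8 * ((i : ℝ) + 1) * φ) * Real.log 2) * J ≤
      r * Δ * J + 20 * (r : ℝ) ^ 2 * φ * J := by
    have s1 : ∑ i ∈ range r, (nf i - sn i x' + 8 * ((i : ℝ) + 1) * φ) * Real.log 2 ≤
        ∑ i ∈ range r, (Δ + 8 * ((i : ℝ) + 1) * φ) := by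
      refine Finset.sum_le_sum fun i hi => ?_
      rw [mem_range] at hi
      have e1 := N.nf0 i hi
      have e2 := N.nfΔ i hi
      have e3 : 0 ≤ 8 * ((i : ℝ) + 1) * φ := by positivity
      have e4 : (nf i - sn i x' + 8 * ((i : ℝ) + 1) * φ) * Real.log 2 ≤
          (nf i - sn i x' + 8 * ((i : ℝ) + 1) * φ) * 1 :=
        mul_le_mul_of_nonneg_left hl2' (by linarith)
      linarith
    have s2 := sum_loss r hφ.le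
    have s3 : ∑ i ∈ range r, (Δ + 8 * ((i : ℝ) + 1) * φ) =
        r * Δ + ∑ i ∈ range r, 8 * ((i : ℝ) + 1) * φ := by
      rw [Finset.sum_add_distrib, Finset.sum_const, card_range, nsmul_eq_mul]
    have s4 := mul_le_mul_of_nonneg_right (s1.trans (s3.le.trans (add_le_add le_rfl s2))) hJ0
    linarith
  have b9 : CH (Pool.Agent.H49.Ent.cond F.p A True) Xp (fun ω => (R' ω, F.W ω)) ≤
      CH (Pool.Agent.H49.Ent.cond F.p A True) Xp (fun ω => ((), (R' ω, F.W ω))) :=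
    CH_mono_cond h0 fun ω ω' _ _ hh => Prod.ext rfl hh
  -- the positions given the record of `zw`
  have b5 : CH (Pool.Agent.H49.Ent.cond F.p A True) XJ (fun ω => (Xp ω, (zw ω, F.W ω))) ≤
      k * J + (Gf + η * J) :=
    CH_tr h0 XJ (le_trans (CH_mono_cond h0 fun ω ω' _ _ hh => by
      simp only [Prod.mk.injEq] at hh
      exact hh.2.1) d5) a5 fun ω ω' _ _ hh => by
        simp only [Prod.mk.injEq] at hh ⊢
        exact ⟨hh.2.1, hh.1, hh.2.2.2⟩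
  have b5' : CH (Pool.Agent.H49.Ent.cond F.p A True) Xp (fun ω => (XJ ω, (zw ω, F.W ω))) ≤
      k * J + η * J :=
    CH_tr h0 Xp (le_trans (CH_mono_cond h0 fun ω ω' _ _ hh => by
      simp only [Prod.mk.injEq] at hh
      exact hh.2.1) d5) a5' fun ω ω' _ _ hh => by
        simp only [Prod.mk.injEq] at hh ⊢
        exact ⟨hh.2.1, hh.1, hh.2.2.2⟩
  -- the target
  have hmore : ∀ {Ml Λl Δl : ℝ}, 0 ≤ Ml → Ml ≤ Λl → Λl ≤ Ml + Δl → ∀ (κ : Fin m) {δ : Type}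
      (Z : F.Ω → δ), CH (Pool.Agent.H49.Ent.cond F.p A True) (fun ω => F.X ⌊Λl * (J : ℝ)⌋₊ ω κ)
        (fun ω => (F.X ⌊Ml * (J : ℝ)⌋₊ ω κ, Z ω)) ≤ Δl * J + η * J := by
    intro Ml Λl Δl h1 h2 h3 κ δ Z
    have hfl : ⌊Ml * (J : ℝ)⌋₊ ≤ ⌊Λl * (J : ℝ)⌋₊ :=
      Nat.floor_le_floor (mul_le_mul_of_nonneg_right h2 hJ0)
    refine (X_more hcl hfl κ Z).trans ?_
    have e1 : (⌊Λl * (J : ℝ)⌋₊ : ℝ) ≤ Λl * J := Nat.floor_le (mul_nonneg (h1.trans h2) hJ0)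
    have e2 : Ml * (J : ℝ) ≤ (⌊Ml * (J : ℝ)⌋₊ : ℝ) + 1 := (Nat.lt_floor_add_one _).le
    have e3 : Λl * J ≤ (Ml + Δl) * J := mul_le_mul_of_nonneg_right h3 hJ0
    have e4 : 0 ≤ (⌊Λl * (J : ℝ)⌋₊ : ℝ) - ⌊Ml * (J : ℝ)⌋₊ := by
      have : (⌊Ml * (J : ℝ)⌋₊ : ℝ) ≤ ⌊Λl * (J : ℝ)⌋₊ := by exact_mod_cast hfl
      linarith
    have e5 : ((⌊Λl * (J : ℝ)⌋₊ : ℝ) - ⌊Ml * (J : ℝ)⌋₊) * Real.log 2 ≤
        ((⌊Λl * (J : ℝ)⌋₊ : ℝ) - ⌊Ml * (J : ℝ)⌋₊) * 1 := mul_le_mul_of_nonneg_left hl2' e4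
    linarith
  obtain ⟨Cx, hCx⟩ : ∃ Cx : F.Ω → _, Cx = fun ω => ceI ((range r).image c) (fun _ => J) (F.x ω) :=
    ⟨_, rfl⟩
  have hnl := nl_asm h0 (N1 := fun ω => (N1 ω, M1 ω)) (N2 := fun ω => (N2 ω, M2 ω)) (XJ := XJ)
    (C := Cx) (zw := zw) (zc := cR F A w)
    (zv := cR F A v) (Rj := Rj) (Y := F.W)
    (Xo := fun ω => (F.X ⌊Mf * J⌋₊ ω (c r), F.X ⌊Mf' * J⌋₊ ω (c' r)))
    (Xv := fun ω => (F.X ⌊Λv * J⌋₊ ω (c r), F.X ⌊Λv' * J⌋₊ ω (c' r)))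
    (Xn := fun ω => (F.X ⌊Mn * J⌋₊ ω (c r), F.X ⌊Mn' * J⌋₊ ω (c' r)))
    (a := k * J) (e := η * J + η * J) (d := (Δ' * J + η * J) + (Δn * J + η * J)) (κn := κn * J)
    (by rw [hXJ, hCx]; exact det_cei rfl _) (by rw [hXJ, hCx]; exact det_cei' rfl _) d6 d7 d8
    ((CH_subadd h0 N2 M2 _).trans (add_le_add
      ((CH_mono_cond h0 fun ω ν _ _ e => by
        rw [hCx] at e
        simp only [Prod.mk.injEq] at e ⊢
        exact ⟨e.1.1, e.2.1, e.2.2.1, e.2.2.2⟩).trans a8.1)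
      ((CH_mono_cond h0 fun ω ν _ _ e => by
        rw [hCx] at e
        simp only [Prod.mk.injEq] at e ⊢
        exact ⟨e.1.2, e.2.1, e.2.2.1, e.2.2.2⟩).trans a8'.1)))
    ((CH_subadd h0 (fun ω => F.X ⌊Mf * J⌋₊ ω (c r)) (fun ω => F.X ⌊Mf' * J⌋₊ ω (c' r)) _).trans
      (add_le_add
      ((CH_mono_cond h0 fun ω ν _ _ e => by
        rw [hCx] at e
        simp only [Prod.mk.injEq] at e ⊢
        exact ⟨e.1.1, e.2.1, e.2.2.1, e.2.2.2⟩).trans a8.2)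
      ((CH_mono_cond h0 fun ω ν _ _ e => by
        rw [hCx] at e
        simp only [Prod.mk.injEq] at e ⊢
        exact ⟨e.1.2, e.2.1, e.2.2.1, e.2.2.2⟩).trans a8'.2)))
    ((CH_subadd h0 (fun ω => F.X ⌊Mn * J⌋₊ ω (c r)) (fun ω => F.X ⌊Mn' * J⌋₊ ω (c' r)) _).trans
      (add_le_add
      ((CH_mono_cond h0 fun ω ν _ _ e => by
        rw [hCx] at e
        simp only [Prod.mk.injEq] at e ⊢
        exact ⟨e.1.1, e.2.1, e.2.2.1, e.2.2.2⟩).trans a7.2)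
      ((CH_mono_cond h0 fun ω ν _ _ e => by
        rw [hCx] at e
        simp only [Prod.mk.injEq] at e ⊢
        exact ⟨e.1.2, e.2.1, e.2.2.1, e.2.2.2⟩).trans a7'.2)))
    ((CH_subadd h0 (fun ω => F.X ⌊Λv * J⌋₊ ω (c r)) (fun ω => F.X ⌊Λv' * J⌋₊ ω (c' r)) _).trans
      (add_le_add
      ((CH_mono_cond h0 fun ω ν _ _ e => by
        simp only [Prod.mk.injEq] at e ⊢
        exact ⟨e.1.1, e.2⟩).trans (hmore N.m0 N.mv N.vΔ (c r)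
          (fun ω => ((N1 ω, M1 ω), (XJ ω, (zw ω, F.W ω))))))
      ((CH_mono_cond h0 fun ω ν _ _ e => by
        simp only [Prod.mk.injEq] at e ⊢
        exact ⟨e.1.2, e.2⟩).trans (hmore N'.m0 N'.mv N'.vΔ (c' r)
          (fun ω => ((N1 ω, M1 ω), (XJ ω, (zw ω, F.W ω))))))))
    (by
      rw [hCx]
      exact a11)
  have hn1 : CH (Pool.Agent.H49.Ent.cond F.p A True) (fun ω => (N1 ω, M1 ω))
      (fun ω => (Xq ω, (Rj ω, F.W ω))) ≤ η * J + η * J :=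
    (CH_subadd h0 N1 M1 _).trans (add_le_add a1 a1')
  have hn2 : CH (Pool.Agent.H49.Ent.cond F.p A True) (fun ω => (N2 ω, M2 ω))
      (fun ω => (R' ω, F.W ω)) ≤ η * J + η * J :=
    (CH_subadd h0 N2 M2 _).trans (add_le_add a2 a2')
  have hkn : κf * J + κn * J + 32 * (η * J) ≤ κ := by linarith
  exact ⟨h0, by linarith, by linarith, by linarith, by linarith, by linarith, huq,
    by linarith, by linarith, by linarith, by linarith, hqp, by linarith, by linarith,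
    by linarith, by linarith, by linarith, by linarith, by linarith⟩

end Pool.VT83
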